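import Mathlib

/-!
# Primes in `(m/2, 3m/4]` for infinitely many `m`
-/

set_option autoImplicit false

namespace Pool.Agent.V11329.Ew

open Finset Nat Filter
open scoped Topology

noncomputable section

/-- primes `p` with `m/2 < p ≤ 3m/4` -/
def Qn (m : ℕ) : Finset ℕ :=
  (Finset.range (m + 1)).filter (fun p => p.Prime ∧ m < 2 * p ∧ 4 * p ≤ 3 * m)

theorem mem_Qn {m p : ℕ} : p ∈ Qn m ↔ p.Prime ∧ m < 2 * p ∧ 4 * p ≤ 3 * m := by
  unfold Qn
  rw [Finset.mem_filter, Finset.mem_range]
  constructor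
  · exact fun h => h.2
  · intro h
    refine ⟨?_, h⟩
    have := h.2.2
    omega

theorem err_small : ∀ᶠ x : ℝ in atTop,
    Real.log (x + 1) + 2 * √x * Real.log x ≤ Real.log 2 / 6 * x := by
  have h1 : (fun x : ℝ => Real.log x) =o[atTop] (fun x => x ^ (1 / 2 : ℝ)) :=
    isLittleO_log_rpow_atTop (by norm_num)
  have h2 : (fun x : ℝ => 2 * √x * Real.log x) =o[atTop] (fun x => x) := by
    have h3 : (fun x : ℝ => 2 * √x * Real.log x) =o[atTop]
        (fun x => (x ^ (1 / 2 : ℝ)) * (x ^ (1 / 2 : ℝ))) := by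
      apply Asymptotics.IsBigO.mul_isLittleO _ h1
      apply Asymptotics.IsBigO.of_bound 2
      filter_upwards with x
      rw [Real.sqrt_eq_rpow, norm_mul]
      simp
    refine h3.congr' (EventuallyEq.rfl) ?_
    filter_upwards [eventually_ge_atTop (0 : ℝ)] with x hx
    rw [← Real.sqrt_eq_rpow, Real.mul_self_sqrt hx]
  have h4 : (fun x : ℝ => Real.log (x + 1)) =o[atTop] (fun x => x) := by
    have h5 : Tendsto (fun x : ℝ => x + 1) atTop atTop := tendsto_atTop_add_const_right _ _ tendsto_id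
    have h6 := Real.isLittleO_log_id_atTop.comp_tendsto h5
    have h7 : (fun x : ℝ => x + 1) =O[atTop] (fun x => x) := by
      apply Asymptotics.IsBigO.of_bound 2
      filter_upwards [eventually_ge_atTop (1 : ℝ)] with x hx
      rw [Real.norm_eq_abs, Real.norm_eq_abs, abs_of_nonneg (by linarith), abs_of_nonneg (by linarith)]
      linarith
    exact h6.trans_isBigO h7
  have h8 := (h4.add h2).bound (show (0 : ℝ) < Real.log 2 / 6 from
    div_pos (Real.log_pos (by norm_num)) (by norm_num))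
  filter_upwards [h8, eventually_ge_atTop (0 : ℝ)] with x hx hx0
  rw [Real.norm_eq_abs, Real.norm_eq_abs, abs_of_nonneg hx0] at hx
  exact (le_abs_self _).trans hx

theorem theta_diff (k : ℕ) : Chebyshev.theta ((12 * k : ℕ) : ℝ) - Chebyshev.theta ((4 * k : ℕ) : ℝ) ≤
    (((Qn (8 * k)).card + (Qn (12 * k)).card + (Qn (18 * k)).card : ℕ) : ℝ) *
      Real.log ((12 * k : ℕ) : ℝ) := by
  rw [Chebyshev.theta_eq_sum_primesLE_log, Chebyshev.theta_eq_sum_primesLE_log]
  have hsub : Nat.primesLE (4 * k) ⊆ Nat.primesLE (12 * k) := by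
    intro p hp
    rw [Nat.mem_primesLE] at *
    exact ⟨by omega, hp.2⟩
  rw [← Finset.sum_sdiff hsub, add_sub_cancel_right]
  have hle : ∀ p ∈ Nat.primesLE (12 * k) \ Nat.primesLE (4 * k),
      Real.log (p : ℝ) ≤ Real.log ((12 * k : ℕ) : ℝ) := by
    intro p hp
    rw [Finset.mem_sdiff, Nat.mem_primesLE] at hp
    apply Real.log_le_log
    · exact_mod_cast hp.1.2.pos
    · exact_mod_cast hp.1.1
  refine (Finset.sum_le_card_nsmul _ _ _ hle).trans ?_
  rw [nsmul_eq_mul]
  apply mul_le_mul_of_nonneg_right _ (Real.log_natCast_nonneg _)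
  have hcov : Nat.primesLE (12 * k) \ Nat.primesLE (4 * k) ⊆ Qn (8 * k) ∪ Qn (12 * k) ∪ Qn (18 * k) := by
    intro p hp
    rw [Finset.mem_sdiff, Nat.mem_primesLE, Nat.mem_primesLE] at hp
    rw [Finset.mem_union, Finset.mem_union, mem_Qn, mem_Qn, mem_Qn]
    obtain ⟨⟨h1, h2⟩, h3⟩ := hp
    have h4 : 4 * k < p := by
      by_contra h
      exact h3 ⟨by omega, h2⟩
    by_cases h5 : p ≤ 6 * k
    · left; left; exact ⟨h2, by omega, by omega⟩
    · by_cases h6 : p ≤ 9 * k
      · left; right; exact ⟨h2, by omega, by omega⟩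
      · right; exact ⟨h2, by omega, by omega⟩
  have := (Finset.card_le_card hcov).trans ((Finset.card_union_le _ _).trans
    (Nat.add_le_add_right (Finset.card_union_le _ _) _))
  exact_mod_cast this

theorem windows : ∀ M : ℕ, ∃ m ≥ M, 2 ≤ m ∧
    Real.log 2 / 30 * (m / Real.log m) ≤ ((Qn m).card : ℝ) := by
  intro M
  have h1 := err_small
  rw [eventually_atTop] at h1
  obtain ⟨x0, hx0⟩ := h1
  obtain ⟨k0, hk0⟩ := exists_nat_ge x0
  set k := max (max M k0) 1 with hk
  have hk1 : 1 ≤ k := le_max_right _ _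
  have hkM : M ≤ k := (le_max_left _ _).trans (le_max_left _ _)
  have hkk : k0 ≤ k := (le_max_right _ _).trans (le_max_left _ _)
  have hkr : (1 : ℝ) ≤ k := by exact_mod_cast hk1
  have hx : x0 ≤ ((12 * k : ℕ) : ℝ) := by
    refine hk0.trans ?_
    have : k0 ≤ 12 * k := by omega
    exact_mod_cast this
  have e1 := hx0 _ hx
  have e2 := Chebyshev.theta_ge (12 * k)
  have e3 := Chebyshev.theta_le_log4_mul_x (x := ((4 * k : ℕ) : ℝ)) (by positivity)
  have e4 := theta_diff k
  have hlog4 : Real.log 4 = 2 * Real.log 2 := by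
    rw [show (4 : ℝ) = 2 ^ 2 by norm_num, Real.log_pow]; norm_num
  have hlog2 : 0 < Real.log 2 := Real.log_pos (by norm_num)
  rw [hlog4] at e3
  have c12 : ((12 * k : ℕ) : ℝ) = 12 * k := by push_cast; ring
  have c4 : ((4 * k : ℕ) : ℝ) = 4 * k := by push_cast; ring
  rw [c12] at e1 e2 e4
  rw [c4] at e3 e4
  have main : 2 * (k : ℝ) * Real.log 2 ≤
      (((Qn (8 * k)).card + (Qn (12 * k)).card + (Qn (18 * k)).card : ℕ) : ℝ) *
      Real.log (12 * k) := by
    nlinarith
  have hl12 : 0 < Real.log (12 * k) := Real.log_pos (by linarith)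
  have hl8 : 0 < Real.log (8 * k) := Real.log_pos (by linarith)
  have hl18 : Real.log (12 * k) ≤ Real.log (18 * k) := Real.log_le_log (by linarith) (by linarith)
  have hl8' : Real.log (12 * k) ≤ 2 * Real.log (8 * k) := by
    have : 2 * Real.log (8 * k) = Real.log ((8 * k) ^ 2) := by rw [Real.log_pow]; norm_num
    rw [this]
    apply Real.log_le_log (by linarith)
    nlinarith
  by_contra hcon
  push Not at hcon
  have f8 := hcon (8 * k) (by omega) (by omega)
  have f12 := hcon (12 * k) (by omega) (by omega)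
  have f18 := hcon (18 * k) (by omega) (by omega)
  push_cast at f8 f12 f18 main
  have g8 : (8 * (k : ℝ)) / Real.log (8 * k) ≤ 16 * k / Real.log (12 * k) := by
    rw [div_le_div_iff₀ hl8 hl12]
    nlinarith
  have g18 : (18 * (k : ℝ)) / Real.log (18 * k) ≤ 18 * k / Real.log (12 * k) := by
    apply div_le_div_of_nonneg_left (by positivity) hl12 hl18
  have hsum : ((Qn (8 * k)).card : ℝ) + (Qn (12 * k)).card + (Qn (18 * k)).card <
      Real.log 2 / 30 * (46 * k / Real.log (12 * k)) := by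
    have a1 : Real.log 2 / 30 * ((8 * (k : ℝ)) / Real.log (8 * k)) ≤
        Real.log 2 / 30 * (16 * k / Real.log (12 * k)) :=
      mul_le_mul_of_nonneg_left g8 (by positivity)
    have a2 : Real.log 2 / 30 * ((18 * (k : ℝ)) / Real.log (18 * k)) ≤
        Real.log 2 / 30 * (18 * k / Real.log (12 * k)) :=
      mul_le_mul_of_nonneg_left g18 (by positivity)
    have a3 : Real.log 2 / 30 * (46 * (k : ℝ) / Real.log (12 * k)) =
      Real.log 2 / 30 * (16 * k / Real.log (12 * k)) +
      Real.log 2 / 30 * (12 * k / Real.log (12 * k)) +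
      Real.log 2 / 30 * (18 * k / Real.log (12 * k)) := by ring
    rw [a3]
    linarith
  have hfin : (((Qn (8 * k)).card : ℝ) + (Qn (12 * k)).card + (Qn (18 * k)).card) *
      Real.log (12 * k) < 2 * (k : ℝ) * Real.log 2 := by
    calc (((Qn (8 * k)).card : ℝ) + (Qn (12 * k)).card + (Qn (18 * k)).card) *
      Real.log (12 * k) < Real.log 2 / 30 * (46 * k / Real.log (12 * k)) * Real.log (12 * k) :=
          mul_lt_mul_of_pos_right hsum hl12
      _ = Real.log 2 / 30 * (46 * k) := by rw [mul_assoc, div_mul_cancel₀ _ hl12.ne']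
      _ ≤ 2 * (k : ℝ) * Real.log 2 := by nlinarith
  linarith

end

end Pool.Agent.V11329.Ew
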