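import Mathlib

/-!
# A transitive group containing a permutation with a large prime cycle contains the alternating group
-/

set_option autoImplicit false

namespace Pool.Agent.V11329.Ew

open Equiv.Perm MulAction

theorem ai {α : Type*} (u : Equiv.Perm α) (y : α) : u (u⁻¹ y) = y := Equiv.apply_symm_apply u y

section comm

variable {α : Type*} [Fintype α] [DecidableEq α]

/-- commutator of two permutations whose supports meet in one point is a three-cycle -/
theorem comm_threeCycle (u v : Equiv.Perm α) (x : α) (hx : x ∈ u.support) (hx' : x ∈ v.support)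
    (hone : ∀ y, y ∈ u.support → y ∈ v.support → y = x) :
    (u * v * u⁻¹ * v⁻¹).IsThreeCycle := by
  have hux : u x ≠ x := Equiv.Perm.mem_support.1 hx
  have hvx : v x ≠ x := Equiv.Perm.mem_support.1 hx'
  have hu : ∀ y, y ≠ x → y ∈ v.support → u y = y := by
    intro y hy hyv
    by_contra h
    exact hy (hone y (Equiv.Perm.mem_support.2 h) hyv)
  have hv : ∀ y, y ≠ x → y ∈ u.support → v y = y := by
    intro y hy hyu
    by_contra h
    exact hy (hone y hyu (Equiv.Perm.mem_support.2 h))
  have hui : ∀ y, u y = y → u⁻¹ y = y := fun y h => by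
    rw [Equiv.Perm.inv_eq_iff_eq]; exact h.symm
  have hvi : ∀ y, v y = y → v⁻¹ y = y := fun y h => by
    rw [Equiv.Perm.inv_eq_iff_eq]; exact h.symm
  have hsupp : (u * v * u⁻¹ * v⁻¹).support ⊆ {x, u x, v x} := by
    intro y hy
    rw [Equiv.Perm.mem_support] at hy
    by_contra hne
    simp only [Finset.mem_insert, Finset.mem_singleton, not_or] at hne
    obtain ⟨h1, h2, h3⟩ := hne
    apply hy
    simp only [Equiv.Perm.mul_apply]
    by_cases hyv : y ∈ v.support
    · have a1 : v⁻¹ y ∈ v.support := by
        rw [Equiv.Perm.mem_support]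
        intro h
        rw [ai] at h
        have : v y = y := by
          conv_lhs => rw [h]
          exact ai v y
        exact (Equiv.Perm.mem_support.1 hyv) this
      have a2 : v⁻¹ y ≠ x := by
        intro h
        apply h3
        rw [← h, ai]
      rw [hui _ (hu _ a2 a1), ai]
      exact hu y h1 hyv
    · have hvy : v y = y := Equiv.Perm.notMem_support.1 hyv
      rw [hvi y hvy]
      by_cases hyu : y ∈ u.support
      · have a1 : u⁻¹ y ∈ u.support := by
          rw [Equiv.Perm.mem_support]
          intro h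
          rw [ai] at h
          have : u y = y := by
            conv_lhs => rw [h]
            exact ai u y
          exact (Equiv.Perm.mem_support.1 hyu) this
        have a2 : u⁻¹ y ≠ x := by
          intro h
          apply h2
          rw [← h, ai]
        rw [hv _ a2 a1, ai]
      · have huy : u y = y := Equiv.Perm.notMem_support.1 hyu
        rw [hui y huy, hvy, huy]
  have hcard : (u * v * u⁻¹ * v⁻¹).support.card ≤ 3 :=
    (Finset.card_le_card hsupp).trans Finset.card_le_three
  have hne1 : u * v * u⁻¹ * v⁻¹ ≠ 1 := by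
    intro h
    have h1 : u * v = v * u := by
      have := congrArg (fun t => t * v * u) h
      simpa [mul_assoc] using this
    -- evaluate at `x`
    have h2 : u (v x) = v (u x) := by
      have := congrArg (fun t : Equiv.Perm α => t x) h1
      simpa using this
    have h3 : u (v x) = v x := hu _ hvx (Equiv.Perm.apply_mem_support.2 hx')
    have h4 : v (u x) = u x := hv _ hux (Equiv.Perm.apply_mem_support.2 hx)
    rw [h3, h4] at h2
    have h5 : v x ∈ u.support := by
      rw [h2]; exact Equiv.Perm.apply_mem_support.2 hx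
    exact hvx (hone _ h5 (Equiv.Perm.apply_mem_support.2 hx'))
  have h2 : 2 ≤ (u * v * u⁻¹ * v⁻¹).support.card :=
    Equiv.Perm.two_le_card_support_of_ne_one hne1
  rw [← card_support_eq_three_iff]
  have hsign : Equiv.Perm.sign (u * v * u⁻¹ * v⁻¹) = 1 := by
    simp only [Equiv.Perm.sign_mul, Equiv.Perm.sign_inv]
    rw [mul_assoc, mul_assoc, mul_comm (Equiv.Perm.sign v), mul_assoc, ← mul_assoc]
    rw [Int.units_mul_self, Int.units_mul_self, one_mul]
  interval_cases h : (u * v * u⁻¹ * v⁻¹).support.card
  · exfalso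
    have := Equiv.Perm.card_support_eq_two.1 h
    rw [this.sign_eq] at hsign
    exact absurd hsign (by decide)
  · rfl

end comm

variable {n : ℕ}

theorem gp (G : Subgroup (Equiv.Perm (Fin n))) (hG : IsPretransitive G (Fin n))
    (σ : Equiv.Perm (Fin n)) (hσ : σ ∈ G) (p : ℕ) (hp : p.Prime) (hpn : n < 2 * p)
    (hc : p ∈ σ.cycleType) (hne : σ ^ p ≠ 1) : alternatingGroup (Fin n) ≤ G := by
  classical
  -- the large cycle
  set c := σ ^ (orderOf σ / p) with hcdef
  have hcG : c ∈ G := G.pow_mem hσ _
  have hord : orderOf c = p :=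
    orderOf_pow_orderOf_div (orderOf_pos σ).ne' (Equiv.Perm.dvd_of_mem_cycleType hc)
  have hcyc : c.IsCycle := by
    apply Equiv.Perm.isCycle_of_prime_order'
    · rw [hord]; exact hp
    · rw [hord, Fintype.card_fin]; exact hpn
  have hcs : c.support.card = p := by rw [← hcyc.orderOf, hord]
  -- the complementary part
  set u := σ ^ p with hudef
  have huG : u ∈ G := G.pow_mem hσ _
  have hus : u.support.card + p ≤ n := by
    rw [Equiv.Perm.cycleType_def, Multiset.mem_map] at hc
    obtain ⟨f, hf, hfp⟩ := hc
    have hf' : f ∈ σ.cycleFactorsFinset := hf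
    have hdis : Disjoint u.support f.support := by
      rw [Finset.disjoint_left]
      intro y hy hyf
      rw [Equiv.Perm.mem_support] at hy
      apply hy
      have h1 : ∀ k : ℕ, (σ ^ k) y = (f ^ k) y := by
        have h0 := (Equiv.Perm.mem_cycleFactorsFinset_iff.1 hf').2
        have hmem : ∀ k : ℕ, (f ^ k) y ∈ f.support := by
          intro k
          rw [Equiv.Perm.pow_apply_mem_support]
          exact hyf
        intro k
        induction k with
        | zero => rfl
        | succ k ih =>
          rw [pow_succ', pow_succ', Equiv.Perm.mul_apply, Equiv.Perm.mul_apply, ih]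
          exact (h0 _ (hmem k)).symm
      rw [hudef, h1]
      have h2 : orderOf f = p := by
        rw [(Equiv.Perm.mem_cycleFactorsFinset_iff.1 hf').1.orderOf]
        exact hfp
      rw [← h2, pow_orderOf_eq_one]
      rfl
    have h3 : f.support.card = p := hfp
    rw [← h3, ← Finset.card_union_of_disjoint hdis]
    have := Finset.card_le_univ (u.support ∪ f.support)
    simpa using this
  have hu2 : 2 ≤ u.support.card := Equiv.Perm.two_le_card_support_of_ne_one hne
  have hp2 := hp.two_le
  -- primitivity on the support of `c`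
  have hcard : Nat.card (SubMulAction.ofFixingSubgroup G (c.support : Set (Fin n))ᶜ) = p := by
    rw [Nat.card_eq_fintype_card, Fintype.card_subtype]
    rw [← hcs]
    congr 1
    ext x
    simp [SubMulAction.mem_ofFixingSubgroup_iff]
  have hpt := isPretransitive_of_isCycle_mem hcyc hcG
  have hprim : IsPreprimitive (fixingSubgroup G (c.support : Set (Fin n))ᶜ)
      (SubMulAction.ofFixingSubgroup G (c.support : Set (Fin n))ᶜ) := by
    apply IsPreprimitive.of_prime_card
    rw [hcard]
    exact hp
  -- primitivity of `G`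
  let f : (SubMulAction.ofFixingSubgroup G (c.support : Set (Fin n))ᶜ) →ₑ[
      (Subgroup.subtype (fixingSubgroup G (c.support : Set (Fin n))ᶜ))] (Fin n) :=
    { toFun := fun x => x.1
      map_smul' := fun g x => rfl }
  have hGprim : IsPreprimitive G (Fin n) := by
    apply IsPreprimitive.of_card_lt (f := f)
    have hr : Set.range f = (c.support : Set (Fin n)) := by
      ext x
      constructor
      · rintro ⟨y, rfl⟩
        have := y.2
        rw [SubMulAction.mem_ofFixingSubgroup_iff] at this
        have h1 : f y = y.1 := rfl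
        rw [h1]
        simpa using this
      · intro hx
        refine ⟨⟨x, ?_⟩, rfl⟩
        rw [SubMulAction.mem_ofFixingSubgroup_iff]
        simpa using hx
    rw [hr, Set.ncard_coe_finset, hcs, Nat.card_eq_fintype_card, Fintype.card_fin]
    exact hpn
  -- multiple transitivity
  have hsn : ((c.support : Set (Fin n))ᶜ).ncard = (n - p - 1) + 1 := by
    have := Set.ncard_add_ncard_compl (c.support : Set (Fin n))
    rw [Set.ncard_coe_finset, hcs, Nat.card_eq_fintype_card, Fintype.card_fin] at this
    omega
  have hmul : IsMultiplyPreprimitive G (Fin n) ((n - p - 1) + 2) := by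
    apply hGprim.isMultiplyPreprimitive hsn _ hprim
    rw [Nat.card_eq_fintype_card, Fintype.card_fin]
    omega
  have hmt : IsMultiplyPretransitive G (Fin n) ((n - p - 1) + 2) :=
    hmul.isMultiplyPretransitive
  have hmt2 : IsMultiplyPretransitive G (Fin n) (u.support.card) := by
    apply isMultiplyPretransitive_of_le (n := (n - p - 1) + 2)
    · omega
    · rw [Nat.card_eq_fintype_card, Fintype.card_fin]
      omega
  -- move the support of `u`
  set k := u.support.card with hk
  let e1 : Fin k ↪ Fin n := (u.support.orderEmbOfFin hk.symm).toEmbedding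
  have he1 : ∀ i, e1 i ∈ u.support := fun i => Finset.orderEmbOfFin_mem u.support hk.symm i
  have he1s : ∀ y ∈ u.support, ∃ i, e1 i = y := by
    intro y hy
    have := Finset.range_orderEmbOfFin u.support hk.symm
    have h2 : y ∈ Set.range (u.support.orderEmbOfFin hk.symm) := by
      rw [this]; exact hy
    exact h2
  have hk0 : 0 < k := by omega
  have hcc : k ≤ (u.supportᶜ).card := by
    rw [Finset.card_compl, Fintype.card_fin, ← hk]
    omega
  obtain ⟨t, ht, htc⟩ := Finset.exists_subset_card_eq hcc
  let e3 : Fin k ↪ Fin n := (t.orderEmbOfFin htc).toEmbedding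
  have he3 : ∀ i, e3 i ∉ u.support := by
    intro i
    have := ht (Finset.orderEmbOfFin_mem t htc i)
    rw [Finset.mem_compl] at this
    exact this
  let e2 : Fin k ↪ Fin n :=
    ⟨fun i => if i = ⟨0, hk0⟩ then e1 ⟨0, hk0⟩ else e3 i, by
      intro i j hij
      dsimp only at hij
      split_ifs at hij with h1 h2 h2
      · rw [h1, h2]
      · exact absurd (hij ▸ he1 ⟨0, hk0⟩) (he3 j)
      · exact absurd (hij ▸ he1 ⟨0, hk0⟩) (he3 i)
      · exact e3.injective hij⟩
  have he20 : e2 ⟨0, hk0⟩ = e1 ⟨0, hk0⟩ := by
    show (if (⟨0, hk0⟩ : Fin k) = ⟨0, hk0⟩ then e1 ⟨0, hk0⟩ else e3 ⟨0, hk0⟩) = e1 ⟨0, hk0⟩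
    exact if_pos rfl
  have he2 : ∀ i, e2 i ∈ u.support → i = ⟨0, hk0⟩ := by
    intro i hi
    by_contra hne0
    have h1 : e2 i = e3 i := if_neg hne0
    rw [h1] at hi
    exact he3 i hi
  obtain ⟨h, hh⟩ := MulAction.exists_smul_eq (M := G) e1 e2
  have hh' : ∀ i, (h : Equiv.Perm (Fin n)) (e1 i) = e2 i := by
    intro i
    rw [← hh]
    rfl
  set v : Equiv.Perm (Fin n) := (h : Equiv.Perm (Fin n)) * u * (h : Equiv.Perm (Fin n))⁻¹ with hv
  have hvG : v ∈ G := G.mul_mem (G.mul_mem h.2 huG) (G.inv_mem h.2)
  have hvs : ∀ y, y ∈ v.support ↔ ∃ i, y = e2 i := by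
    intro y
    rw [hv, Equiv.Perm.support_conj, Finset.mem_map]
    constructor
    · rintro ⟨z, hz, rfl⟩
      obtain ⟨i, rfl⟩ := he1s z hz
      exact ⟨i, hh' i⟩
    · rintro ⟨i, rfl⟩
      exact ⟨e1 i, he1 i, hh' i⟩
  have h3 := comm_threeCycle u v (e1 ⟨0, hk0⟩) (he1 _) ((hvs _).2 ⟨⟨0, hk0⟩, he20.symm⟩) (by
    intro y hy hyv
    obtain ⟨i, rfl⟩ := (hvs y).1 hyv
    rw [he2 i hy, he20])
  exact alternatingGroup_le_of_isPreprimitive_of_isThreeCycle_mem hGprim h3
    (G.mul_mem (G.mul_mem (G.mul_mem huG hvG) (G.inv_mem huG)) (G.inv_mem hvG))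

theorem eq_top (G : Subgroup (Equiv.Perm (Fin n))) (hA : alternatingGroup (Fin n) ≤ G)
    (σ : Equiv.Perm (Fin n)) (hσ : σ ∈ G) (hs : sign σ ≠ 1) : G = ⊤ := by
  rw [eq_top_iff]
  intro τ _
  by_cases h : sign τ = 1
  · exact hA (Equiv.Perm.mem_alternatingGroup.2 h)
  · have h1 : sign τ = -1 := (Int.units_eq_one_or _).resolve_left h
    have h2 : sign σ = -1 := (Int.units_eq_one_or _).resolve_left hs
    have h3 : τ * σ ∈ G := hA (Equiv.Perm.mem_alternatingGroup.2 (by
      rw [Equiv.Perm.sign_mul, h1, h2]; rfl))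
    have h4 : τ = (τ * σ) * σ⁻¹ := by group
    rw [h4]
    exact G.mul_mem h3 (G.inv_mem hσ)

end Pool.Agent.V11329.Ew
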