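import Pool.Agent.V11329.Ew.PermT
import Pool.Agent.V11329.Ew.Grp

/-!
# Sufficient condition for invariable generation and the probability bound
-/

set_option autoImplicit false

namespace Pool.Agent.V11329.Ew

open Finset Nat Equiv.Perm
open scoped Classical

noncomputable section

variable {n : ℕ}

/-- invariable generation of the symmetric group -/
def InvGen {N : ℕ} (s : Fin N → Equiv.Perm (Fin n)) : Prop :=
  ∀ τ : Fin N → Equiv.Perm (Fin n),
    Subgroup.closure (Set.range fun i => τ i * s i * (τ i)⁻¹) = ⊤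

/-- probability that `N` independent Ewens permutations invariably generate -/
def pr (α : ℝ) (n N : ℕ) : ℝ :=
  ∑ s : Fin N → Equiv.Perm (Fin n), (∏ i, ewens α (s i)) * (if InvGen s then 1 else 0)

theorem ty_conj (σ τ : Equiv.Perm (Fin n)) : ty (τ * σ * τ⁻¹) = ty σ := by
  unfold ty
  rw [Equiv.Perm.cycleType_conj, Equiv.Perm.card_support_conj]

theorem sufficient {N : ℕ} (s : Fin N → Equiv.Perm (Fin n)) (Q Xs : Finset ℕ)
    (hQ : ∀ p ∈ Q, p.Prime ∧ n < 2 * p)
    (hX : ∀ k, 1 ≤ k → 2 * k ≤ n → ∃ x ∈ Xs, x ≤ k ∧ k ≤ 2 * x)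
    (ha : ∃ i, B n Q (ty (s i)) ≠ 0)
    (hb : ∀ x ∈ Xs, ∃ i, A x (ty (s i)) ≠ 0)
    (hc : ∃ i, E n (ty (s i)) ≠ 1) : InvGen s := by
  intro τ
  set G := Subgroup.closure (Set.range fun i => τ i * s i * (τ i)⁻¹) with hG
  have hmem : ∀ i, τ i * s i * (τ i)⁻¹ ∈ G := fun i => Subgroup.subset_closure ⟨i, rfl⟩
  -- transitivity
  have key : ∀ X : Finset (Fin n), (∀ g ∈ G, ∀ x ∈ X, g x ∈ X) → X.Nonempty → ¬ 2 * X.card ≤ n := by
    intro X hXinv hne hcard
    obtain ⟨x, hx, h1, h2⟩ := hX X.card (Finset.card_pos.2 hne) hcard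
    obtain ⟨i, hi⟩ := hb x hx
    apply hi
    rw [← ty_conj (s i) (τ i)]
    exact A_zero _ X (fun y hy => hXinv _ (hmem i) y hy) x h1 h2
  have htrans : MulAction.IsPretransitive G (Fin n) := by
    rw [MulAction.isPretransitive_iff]
    intro x y
    by_contra hxy
    push Not at hxy
    set X : Finset (Fin n) := Finset.univ.filter (fun z => ∃ g ∈ G, g x = z) with hXdef
    have hXinv : ∀ g ∈ G, ∀ z ∈ X, g z ∈ X := by
      intro g hg z hz
      rw [hXdef, Finset.mem_filter] at hz ⊢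
      obtain ⟨_, g', hg', rfl⟩ := hz
      exact ⟨Finset.mem_univ _, g * g', G.mul_mem hg hg', rfl⟩
    have hxX : x ∈ X := by
      rw [hXdef, Finset.mem_filter]
      exact ⟨Finset.mem_univ _, 1, G.one_mem, rfl⟩
    have hyX : y ∉ X := by
      rw [hXdef, Finset.mem_filter]
      rintro ⟨_, g, hg, hgy⟩
      exact hxy ⟨g, hg⟩ hgy
    have h1 := key X hXinv ⟨x, hxX⟩
    have h2 := key Xᶜ (by
      intro g hg z hz
      rw [Finset.mem_compl] at hz ⊢
      intro h
      apply hz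
      have := hXinv g⁻¹ (G.inv_mem hg) _ h
      simpa using this) ⟨y, by rw [Finset.mem_compl]; exact hyX⟩
    rw [Finset.card_compl, Fintype.card_fin] at h2
    have h3 : X.card ≤ n := by
      have := Finset.card_le_univ X
      simpa using this
    omega
  -- alternating group
  obtain ⟨i, hi⟩ := ha
  have hB : ∃ p ∈ Q, p ∈ ty (s i) ∧ ty (s i) ≠ p ::ₘ Multiset.replicate (n - p) 1 := by
    by_contra h
    apply hi
    unfold B
    rw [if_neg h]
  obtain ⟨p, hpQ, hp1, hp2⟩ := hB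
  have hA : alternatingGroup (Fin n) ≤ G := by
    have e := ty_conj (s i) (τ i)
    apply gp G htrans _ (hmem i) p (hQ p hpQ).1 (hQ p hpQ).2
    · apply mem_ty_prime _ (hQ p hpQ).1.two_le
      rw [e]
      exact hp1
    · apply pow_ne_one _ (hQ p hpQ).1 (hQ p hpQ).2
      · rw [e]; exact hp1
      · rw [e]; exact hp2
  obtain ⟨j, hj⟩ := hc
  apply eq_top G hA _ (hmem j)
  intro h
  apply hj
  rw [← ty_conj (s j) (τ j)]
  exact E_one _ h

theorem pr_ge {α : ℝ} (hα : 0 < α) (N : ℕ) (Q Xs : Finset ℕ)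
    (hQ : ∀ p ∈ Q, p.Prime ∧ n < 2 * p)
    (hX : ∀ k, 1 ≤ k → 2 * k ≤ n → ∃ x ∈ Xs, x ≤ k ∧ k ≤ 2 * x) :
    1 - (1 - G α n (B n Q) / H α n) ^ N - ∑ x ∈ Xs, (1 - g α x n / H α n) ^ N -
      (G α n (E n) / H α n) ^ N ≤ pr α n N := by
  have tot := ewens_total (n := n) hα
  have s0 : (1 : ℝ) = ∑ s : Fin N → Equiv.Perm (Fin n), ∏ i, ewens α (s i) := by
    rw [← Fintype.sum_pow, tot, one_pow]
  have s1 : (1 - G α n (B n Q) / H α n) ^ N =
      ∑ s : Fin N → Equiv.Perm (Fin n), (∏ i, ewens α (s i)) * ∏ i, (1 - B n Q (ty (s i))) := by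
    rw [← ewens_sum hα]
    have : (1 : ℝ) - ∑ σ : Equiv.Perm (Fin n), ewens α σ * B n Q (ty σ) =
        ∑ σ : Equiv.Perm (Fin n), ewens α σ * (1 - B n Q (ty σ)) := by
      simp_rw [mul_sub, mul_one]
      rw [Finset.sum_sub_distrib, tot]
    rw [this, Fintype.sum_pow]
    apply Finset.sum_congr rfl
    intro s _
    rw [Finset.prod_mul_distrib]
  have s2 : ∀ x ∈ Xs, (1 - g α x n / H α n) ^ N =
      ∑ s : Fin N → Equiv.Perm (Fin n), (∏ i, ewens α (s i)) * ∏ i, (1 - A x (ty (s i))) := by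
    intro x _
    unfold g
    rw [← ewens_sum hα]
    have : (1 : ℝ) - ∑ σ : Equiv.Perm (Fin n), ewens α σ * A x (ty σ) =
        ∑ σ : Equiv.Perm (Fin n), ewens α σ * (1 - A x (ty σ)) := by
      simp_rw [mul_sub, mul_one]
      rw [Finset.sum_sub_distrib, tot]
    rw [this, Fintype.sum_pow]
    apply Finset.sum_congr rfl
    intro s _
    rw [Finset.prod_mul_distrib]
  have s3 : (G α n (E n) / H α n) ^ N =
      ∑ s : Fin N → Equiv.Perm (Fin n), (∏ i, ewens α (s i)) * ∏ i, E n (ty (s i)) := by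
    rw [← ewens_sum hα, Fintype.sum_pow]
    apply Finset.sum_congr rfl
    intro s _
    rw [Finset.prod_mul_distrib]
  have e : ∑ s : Fin N → Equiv.Perm (Fin n), (∏ i, ewens α (s i)) *
      (1 - ∏ i, (1 - B n Q (ty (s i))) - ∑ x ∈ Xs, ∏ i, (1 - A x (ty (s i))) -
        ∏ i, E n (ty (s i))) =
      1 - (1 - G α n (B n Q) / H α n) ^ N - ∑ x ∈ Xs, (1 - g α x n / H α n) ^ N -
      (G α n (E n) / H α n) ^ N := by
    rw [s1, Finset.sum_congr rfl s2, s3, Finset.sum_comm]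
    simp_rw [mul_sub, Finset.mul_sum]
    rw [Finset.sum_sub_distrib, Finset.sum_sub_distrib, Finset.sum_sub_distrib]
    simp_rw [mul_one]
    rw [← s0]
  rw [← e]
  unfold pr
  apply Finset.sum_le_sum
  intro s _
  have hw : 0 ≤ ∏ i, ewens α (s i) := Finset.prod_nonneg fun i _ => ewens_nonneg hα.le _
  apply mul_le_mul_of_nonneg_left _ hw
  have nB : ∀ i, 0 ≤ 1 - B n Q (ty (s i)) := by
    intro i; unfold B; split_ifs <;> norm_num
  have nA : ∀ x, ∀ i, 0 ≤ 1 - A x (ty (s i)) := by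
    intro x i; unfold A; split_ifs <;> norm_num
  have nE : ∀ i, 0 ≤ E n (ty (s i)) := by
    intro i; unfold E; split_ifs <;> norm_num
  have pB : 0 ≤ ∏ i, (1 - B n Q (ty (s i))) := Finset.prod_nonneg fun i _ => nB i
  have pA : ∀ x, 0 ≤ ∏ i, (1 - A x (ty (s i))) := fun x => Finset.prod_nonneg fun i _ => nA x i
  have pE : 0 ≤ ∏ i, E n (ty (s i)) := Finset.prod_nonneg fun i _ => nE i
  have sA : 0 ≤ ∑ x ∈ Xs, ∏ i, (1 - A x (ty (s i))) := Finset.sum_nonneg fun x _ => pA x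
  by_cases hI : InvGen s
  · rw [if_pos hI]
    linarith
  · rw [if_neg hI]
    by_cases ha : ∃ i, B n Q (ty (s i)) ≠ 0
    · by_cases hb : ∀ x ∈ Xs, ∃ i, A x (ty (s i)) ≠ 0
      · have hc : ¬ ∃ i, E n (ty (s i)) ≠ 1 := fun hc => hI (sufficient s Q Xs hQ hX ha hb hc)
        push Not at hc
        have : ∏ i, E n (ty (s i)) = 1 := Finset.prod_eq_one fun i _ => hc i
        linarith
      · push Not at hb
        obtain ⟨x, hx, hx2⟩ := hb
        have h1 : ∏ i, (1 - A x (ty (s i))) = 1 := by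
          apply Finset.prod_eq_one
          intro i _
          rw [hx2 i, sub_zero]
        have h2 : ∏ i, (1 - A x (ty (s i))) ≤ ∑ x ∈ Xs, ∏ i, (1 - A x (ty (s i))) :=
          Finset.single_le_sum (f := fun x => ∏ i, (1 - A x (ty (s i)))) (fun x _ => pA x) hx
        linarith
    · push Not at ha
      have : ∏ i, (1 - B n Q (ty (s i))) = 1 := by
        apply Finset.prod_eq_one
        intro i _
        rw [ha i, sub_zero]
      linarith

end

end Pool.Agent.V11329.Ew
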