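import Pool.Agent.V11329.Ew.Inv
import Pool.Agent.V11329.Ew.Cheb

/-!
# Logarithmically many Ewens permutations generate with probability bounded below
-/

set_option autoImplicit false

namespace Pool.Agent.V11329.Ew

open Finset Nat Filter
open scoped Topology

noncomputable section

/-- block sizes -/
def Xs (n : ℕ) : Finset ℕ :=
  insert ((n + 3) / 4) (((Finset.range (Nat.log 2 n + 1)).image (fun i => 2 ^ i)).filter
    (fun x => 3 * x ≤ n))

theorem Xs_cover {n : ℕ} (hn : 6 ≤ n) (k : ℕ) (h1 : 1 ≤ k) (h2 : 2 * k ≤ n) :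
    ∃ x ∈ Xs n, x ≤ k ∧ k ≤ 2 * x := by
  by_cases h : (n + 3) / 4 ≤ k
  · exact ⟨(n + 3) / 4, Finset.mem_insert_self _ _, h, by omega⟩
  · refine ⟨2 ^ (Nat.log 2 k), ?_, Nat.pow_log_le_self 2 (by omega), ?_⟩
    · apply Finset.mem_insert_of_mem
      rw [Finset.mem_filter, Finset.mem_image]
      refine ⟨⟨Nat.log 2 k, ?_, rfl⟩, ?_⟩
      · rw [Finset.mem_range]
        have : Nat.log 2 k ≤ Nat.log 2 n := Nat.log_mono_right (by omega)
        omega
      · have := Nat.pow_log_le_self 2 (show k ≠ 0 by omega)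
        omega
    · have := Nat.lt_pow_succ_log_self (b := 2) (by norm_num) k
      rw [_root_.pow_succ] at this
      omega

theorem Xs_prop {n : ℕ} (hn : 9 ≤ n) (x : ℕ) (hx : x ∈ Xs n) : 1 ≤ x ∧ 3 * x ≤ n := by
  unfold Xs at hx
  rw [Finset.mem_insert, Finset.mem_filter, Finset.mem_image] at hx
  rcases hx with rfl | ⟨⟨i, _, rfl⟩, h⟩
  · omega
  · exact ⟨Nat.one_le_two_pow, h⟩

theorem Xs_card (n : ℕ) : (Xs n).card ≤ Nat.log 2 n + 2 := by
  unfold Xs
  refine (Finset.card_insert_le _ _).trans ?_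
  have h1 := Finset.card_filter_le ((Finset.range (Nat.log 2 n + 1)).image (fun i => 2 ^ i))
    (fun x => 3 * x ≤ n)
  have h2 : ((Finset.range (Nat.log 2 n + 1)).image (fun i => 2 ^ i)).card ≤ Nat.log 2 n + 1 := by
    refine Finset.card_image_le.trans ?_
    rw [Finset.card_range]
  omega

theorem natlog_le (n : ℕ) (hn : 1 ≤ n) : (Nat.log 2 n : ℝ) ≤ 2 * Real.log n := by
  have h1 := Nat.pow_log_le_self 2 (show n ≠ 0 by omega)
  have h2 : ((2 : ℝ) ^ (Nat.log 2 n)) ≤ n := by exact_mod_cast h1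
  have h3 := Real.log_le_log (by positivity) h2
  rw [Real.log_pow] at h3
  have h4 : (1 / 2 : ℝ) < Real.log 2 := by
    have := Real.log_two_gt_d9
    linarith
  have h5 : (0 : ℝ) ≤ Nat.log 2 n := by positivity
  nlinarith

theorem pow_le_exp {t : ℝ} (ht0 : 0 ≤ 1 - t) (N : ℕ) : (1 - t) ^ N ≤ Real.exp (-(t * N)) := by
  have h1 : 1 - t ≤ Real.exp (-t) := by
    have := Real.add_one_le_exp (-t)
    linarith
  calc (1 - t) ^ N ≤ (Real.exp (-t)) ^ N := pow_le_pow_left₀ ht0 h1 N
    _ = Real.exp (-(t * N)) := by rw [← Real.exp_nat_mul]; congr 1; ring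

theorem g_le_H {α : ℝ} (hα : 0 ≤ α) (x n : ℕ) : g α x n ≤ H α n := by
  unfold g H
  apply G_mono hα
  intro m _
  unfold A
  split_ifs <;> norm_num

theorem GB_le_H {α : ℝ} (hα : 0 ≤ α) (n : ℕ) (Q : Finset ℕ) : G α n (B n Q) ≤ H α n := by
  unfold H
  apply G_mono hα
  intro m _
  unfold B
  split_ifs <;> norm_num

theorem c0_le_one {α : ℝ} (hα : 1 ≤ α) : c0 α ≤ 1 := by
  have h0 : 0 < α := by linarith
  have h1 := g_ge α hα 1 3 le_rfl le_rfl
  have h2 := g_le_H h0.le 1 3
  have h3 := H_pos h0 3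
  by_contra h
  push Not at h
  nlinarith

theorem err_tendsto {α : ℝ} (hα : 1 ≤ α) (β : ℝ) :
    Tendsto (fun N : ℕ => (2 * (((N : ℝ) + 1) / β) + 2) * (1 - c0 α) ^ N + (α / (α + 1)) ^ N)
      atTop (𝓝 0) := by
  have h0 : 0 < α := by linarith
  have r0 : 0 ≤ 1 - c0 α := by linarith [c0_le_one hα]
  have r1 : 1 - c0 α < 1 := by linarith [c0_pos hα]
  have e1 := tendsto_self_mul_const_pow_of_lt_one r0 r1
  have e2 := tendsto_pow_atTop_nhds_zero_of_lt_one r0 r1
  have e3 : Tendsto (fun N : ℕ => (α / (α + 1)) ^ N) atTop (𝓝 0) := by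
    apply tendsto_pow_atTop_nhds_zero_of_lt_one (by positivity)
    rw [div_lt_one (by linarith)]
    linarith
  have e4 : Tendsto (fun N : ℕ => (2 / β) * ((N : ℝ) * (1 - c0 α) ^ N) +
      (2 / β + 2) * (1 - c0 α) ^ N + (α / (α + 1)) ^ N) atTop
      (𝓝 ((2 / β) * 0 + (2 / β + 2) * 0 + 0)) :=
    ((e1.const_mul _).add (e2.const_mul _)).add e3
  simp only [mul_zero, add_zero] at e4
  refine e4.congr (fun N => ?_)
  ring

theorem freq (α : ℝ) (hα : 1 ≤ α) (β : ℝ) (hβ : 0 < β) :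
    ∃ δ : ℝ, 0 < δ ∧ ∃ᶠ n : ℕ in atTop, δ ≤ pr α n ⌊β * Real.log n⌋₊ := by
  have h0 : 0 < α := by linarith
  obtain ⟨n0, hn0⟩ := B_lower α hα
  set c2 : ℝ := c1 α * (Real.log 2 / 30) with hc2
  have hc2pos : 0 < c2 := by
    have := c1_pos hα
    have h2 : 0 < Real.log 2 := Real.log_pos (by norm_num)
    positivity
  set δ : ℝ := (1 - Real.exp (-(c2 * β / 2))) / 2 with hδ
  have hδpos : 0 < δ := by
    have : Real.exp (-(c2 * β / 2)) < 1 := by
      rw [Real.exp_lt_one_iff]
      have : 0 < c2 * β / 2 := by positivity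
      linarith
    rw [hδ]
    linarith
  refine ⟨δ, hδpos, ?_⟩
  have hlogt : Tendsto (fun n : ℕ => Real.log (n : ℝ)) atTop atTop :=
    Real.tendsto_log_atTop.comp tendsto_natCast_atTop_atTop
  have hNt : Tendsto (fun n : ℕ => ⌊β * Real.log n⌋₊) atTop atTop :=
    tendsto_nat_floor_atTop.comp (hlogt.const_mul_atTop hβ)
  have herr := (err_tendsto hα β).comp hNt
  have ev1 := herr.eventually (gt_mem_nhds hδpos)
  have ev2 := hlogt.eventually (eventually_ge_atTop (max (2 / β) 1))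
  have ev := (ev1.and ev2).and (eventually_ge_atTop (max n0 9))
  rw [eventually_atTop] at ev
  obtain ⟨M0, hM0⟩ := ev
  rw [frequently_atTop]
  intro M
  obtain ⟨m, hm, hm2, hwin⟩ := windows (max M M0)
  refine ⟨m, (le_max_left _ _).trans hm, ?_⟩
  obtain ⟨⟨e1, e2⟩, e3⟩ := hM0 m ((le_max_right _ _).trans hm)
  have hmn0 : n0 ≤ m := (le_max_left _ _).trans e3
  have hm9 : 9 ≤ m := (le_max_right _ _).trans e3
  have hlog1 : 1 ≤ Real.log m := (le_max_right _ _).trans e2
  have hlogβ : 2 / β ≤ Real.log m := (le_max_left _ _).trans e2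
  set N := ⌊β * Real.log m⌋₊ with hN
  have hNlt : β * Real.log m < N + 1 := Nat.lt_floor_add_one _
  have hlogpos : 0 < Real.log m := by linarith
  have hHpos := H_pos h0 m
  have hmpos : (0 : ℝ) < m := by
    have : 0 < m := by omega
    exact_mod_cast this
  -- main inequality
  have hpr := pr_ge (n := m) h0 N (Qn m) (Xs m)
    (fun p hp => ⟨(mem_Qn.1 hp).1, (mem_Qn.1 hp).2.1⟩) (fun k h1 h2 => Xs_cover (by omega) k h1 h2)
  refine le_trans ?_ hpr
  -- the prime term
  have hb := hn0 m hmn0 (Qn m) (fun p hp => (mem_Qn.1 hp).2)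
  set b := G α m (B m (Qn m)) / H α m with hbdef
  have hb1 : c2 / Real.log m ≤ b := by
    rw [hbdef, le_div_iff₀ hHpos]
    refine le_trans ?_ hb
    apply mul_le_mul_of_nonneg_right _ hHpos.le
    have h1 : Real.log 2 / 30 / Real.log m ≤ ((Qn m).card : ℝ) / m := by
      rw [le_div_iff₀ hmpos]
      refine le_trans (le_of_eq ?_) hwin
      ring
    calc c2 / Real.log m = c1 α * (Real.log 2 / 30 / Real.log m) := by rw [hc2]; ring
      _ ≤ _ := mul_le_mul_of_nonneg_left h1 (c1_pos hα).le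
  have hb2 : b ≤ 1 := by
    rw [hbdef, div_le_one hHpos]
    exact GB_le_H h0.le m _
  have hB : (1 - b) ^ N ≤ Real.exp (-(c2 * β / 2)) := by
    refine (pow_le_exp (by linarith) N).trans ?_
    apply Real.exp_le_exp.2
    have h1 : β / 2 * Real.log m ≤ N := by
      have : 1 ≤ β / 2 * Real.log m := by
        rw [div_le_iff₀ hβ] at hlogβ
        linarith
      linarith
    have h2 : c2 * β / 2 ≤ b * N := by
      calc c2 * β / 2 = c2 / Real.log m * (β / 2 * Real.log m) := by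
            field_simp
        _ ≤ b * N := mul_le_mul hb1 h1 (by positivity) (le_trans (by positivity) hb1)
    linarith
  -- the block terms
  have hA : ∑ x ∈ Xs m, (1 - g α x m / H α m) ^ N ≤
      (2 * (((N : ℝ) + 1) / β) + 2) * (1 - c0 α) ^ N := by
    have h1 : ∀ x ∈ Xs m, (1 - g α x m / H α m) ^ N ≤ (1 - c0 α) ^ N := by
      intro x hx
      have hx' := Xs_prop hm9 x hx
      have h2 := g_ge α hα x m hx'.1 hx'.2
      have h3 := g_le_H h0.le x m
      apply pow_le_pow_left₀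
      · rw [sub_nonneg, div_le_one hHpos]
        exact h3
      · have : c0 α ≤ g α x m / H α m := by
          rw [le_div_iff₀ hHpos]
          exact h2
        linarith
    refine (Finset.sum_le_card_nsmul _ _ _ h1).trans ?_
    rw [nsmul_eq_mul]
    apply mul_le_mul_of_nonneg_right _ (pow_nonneg (by linarith [c0_le_one hα]) N)
    have h4 : ((Xs m).card : ℝ) ≤ Nat.log 2 m + 2 := by exact_mod_cast Xs_card m
    have h5 := natlog_le m (by omega)
    have h6 : Real.log m ≤ ((N : ℝ) + 1) / β := by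
      rw [le_div_iff₀ hβ]
      linarith
    linarith
  -- the parity term
  have hE : (G α m (E m) / H α m) ^ N ≤ (α / (α + 1)) ^ N := by
    apply pow_le_pow_left₀
    · apply div_nonneg _ hHpos.le
      apply G_nonneg h0.le
      intro t
      unfold E
      split_ifs <;> norm_num
    · rw [div_le_iff₀ hHpos]
      exact E_upper hα m (by omega)
  have herr' : (2 * (((N : ℝ) + 1) / β) + 2) * (1 - c0 α) ^ N + (α / (α + 1)) ^ N < δ := e1
  have hexp : Real.exp (-(c2 * β / 2)) = 1 - 2 * δ := by rw [hδ]; ring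
  rw [hexp] at hB
  linarith

end

end Pool.Agent.V11329.Ew
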