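import Mathlib

/-!
# Weighted sums over partitions (Ewens weights) and the size-bias recursion
-/

set_option autoImplicit false

namespace Pool.Agent.V11329.Ew

open Finset Nat

noncomputable section

/-- partitions of `n` as a finset of multisets -/
def P (n : ℕ) : Finset (Multiset ℕ) := (Finset.univ : Finset n.Partition).image (fun p => p.parts)

theorem mem_P {n : ℕ} {m : Multiset ℕ} : m ∈ P n ↔ (∀ i ∈ m, 0 < i) ∧ m.sum = n := by
  unfold P
  rw [Finset.mem_image]
  constructor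
  · rintro ⟨p, _, rfl⟩
    exact ⟨fun i hi => p.parts_pos hi, p.parts_sum⟩
  · rintro ⟨h1, h2⟩
    exact ⟨⟨m, fun {i} hi => h1 i hi, h2⟩, Finset.mem_univ _, rfl⟩

/-- product of factorials of multiplicities -/
def cf (m : Multiset ℕ) : ℝ := ∏ i ∈ m.toFinset, ((m.count i)! : ℝ)

theorem cf_pos (m : Multiset ℕ) : 0 < cf m := by
  unfold cf
  positivity

theorem cf_eq (m : Multiset ℕ) (s : Finset ℕ) (h : m.toFinset ⊆ s) :
    ∏ i ∈ s, ((m.count i)! : ℝ) = cf m := by
  unfold cf
  symm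
  apply Finset.prod_subset h
  intro i _ hi
  rw [Multiset.mem_toFinset] at hi
  rw [Multiset.count_eq_zero_of_notMem hi]
  simp

theorem cf_cons (j : ℕ) (m : Multiset ℕ) :
    cf (j ::ₘ m) = ((j ::ₘ m).count j : ℝ) * cf m := by
  have hs : m.toFinset ⊆ (j ::ₘ m).toFinset := by
    intro i hi
    rw [Multiset.mem_toFinset] at *
    exact Multiset.mem_cons_of_mem hi
  rw [← cf_eq m _ hs]
  unfold cf
  have hj : j ∈ (j ::ₘ m).toFinset := by
    rw [Multiset.mem_toFinset]
    exact Multiset.mem_cons_self j m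
  rw [← Finset.mul_prod_erase _ _ hj, ← Finset.mul_prod_erase (a := j)
    (s := (j ::ₘ m).toFinset) (f := fun i => ((m.count i)! : ℝ)) hj]
  rw [Multiset.count_cons_self, Nat.factorial_succ]
  have : ∏ x ∈ (j ::ₘ m).toFinset.erase j, (((j ::ₘ m).count x)! : ℝ) =
      ∏ x ∈ (j ::ₘ m).toFinset.erase j, ((m.count x)! : ℝ) := by
    apply Finset.prod_congr rfl
    intro i hi
    rw [Multiset.count_cons_of_ne (Finset.ne_of_mem_erase hi)]
  rw [this]
  push_cast
  ring

/-- Ewens weight of a partition -/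
def w (α : ℝ) (m : Multiset ℕ) : ℝ := α ^ (Multiset.card m) / ((m.prod : ℝ) * cf m)

theorem w_nonneg {α : ℝ} (hα : 0 ≤ α) (m : Multiset ℕ) : 0 ≤ w α m := by
  unfold w
  have := (cf_pos m).le
  positivity

theorem w_cons (α : ℝ) (j : ℕ) (hj : 0 < j) (m : Multiset ℕ) :
    (j : ℝ) * ((j ::ₘ m).count j) * w α (j ::ₘ m) = α * w α m := by
  unfold w
  rw [cf_cons, Multiset.card_cons, Multiset.prod_cons]
  have h1 : (0 : ℝ) < j := by exact_mod_cast hj
  have h2 : (0 : ℝ) < ((j ::ₘ m).count j : ℝ) := by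
    rw [Multiset.count_cons_self]
    positivity
  have h3 := cf_pos m
  rw [Nat.cast_mul]
  by_cases h4 : (m.prod : ℝ) = 0
  · rw [h4]; simp
  · generalize (m.prod : ℝ) = q at h4
    field_simp
    ring

/-- weighted sum over partitions of `n` -/
def G (α : ℝ) (n : ℕ) (F : Multiset ℕ → ℝ) : ℝ := ∑ m ∈ P n, F m * w α m

theorem single (α : ℝ) (n j : ℕ) (hj : 0 < j) (hjn : j ≤ n) (F : Multiset ℕ → ℝ) :
    ∑ m ∈ P n, ((j : ℝ) * m.count j) * F m * w α m =
      α * G α (n - j) (fun m => F (j ::ₘ m)) := by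
  have h1 : ∑ m ∈ P n, ((j : ℝ) * m.count j) * F m * w α m =
      ∑ m ∈ (P n).filter (fun m => j ∈ m), ((j : ℝ) * m.count j) * F m * w α m := by
    rw [Finset.sum_filter]
    apply Finset.sum_congr rfl
    intro m _
    split_ifs with h
    · rfl
    · rw [Multiset.count_eq_zero_of_notMem h]
      simp
  rw [h1]
  unfold G
  rw [Finset.mul_sum]
  symm
  refine Finset.sum_bij' (fun m _ => j ::ₘ m) (fun m _ => m.erase j) ?_ ?_ ?_ ?_ ?_
  · intro m hm
    rw [mem_P] at hm
    rw [Finset.mem_filter, mem_P]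
    refine ⟨⟨?_, ?_⟩, Multiset.mem_cons_self j m⟩
    · intro i hi
      rw [Multiset.mem_cons] at hi
      rcases hi with rfl | hi
      · exact hj
      · exact hm.1 i hi
    · rw [Multiset.sum_cons, hm.2]
      omega
  · intro m hm
    rw [Finset.mem_filter, mem_P] at hm
    rw [mem_P]
    refine ⟨fun i hi => hm.1.1 i (Multiset.mem_of_mem_erase hi), ?_⟩
    have := Multiset.cons_erase hm.2
    have h2 := congrArg Multiset.sum this
    rw [Multiset.sum_cons, hm.1.2] at h2
    omega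
  · intro m _
    exact Multiset.erase_cons_head j m
  · intro m hm
    rw [Finset.mem_filter] at hm
    exact Multiset.cons_erase hm.2
  · intro m _
    have := w_cons α j hj m
    calc α * (F (j ::ₘ m) * w α m) = F (j ::ₘ m) * (α * w α m) := by ring
      _ = _ := by rw [← this]; ring

theorem sum_count {n : ℕ} {m : Multiset ℕ} (hm : m ∈ P n) :
    ∑ j ∈ Finset.Icc 1 n, ((j : ℝ) * m.count j) = n := by
  rw [mem_P] at hm
  have h1 : m.sum = ∑ j ∈ m.toFinset, m.count j * j := by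
    rw [Finset.sum_multiset_count]
    simp
  have h2 : m.toFinset ⊆ Finset.Icc 1 n := by
    intro j hj
    rw [Multiset.mem_toFinset] at hj
    rw [Finset.mem_Icc]
    refine ⟨hm.1 j hj, ?_⟩
    rw [← hm.2]
    exact Multiset.le_sum_of_mem hj
  have h3 : ∑ j ∈ Finset.Icc 1 n, m.count j * j = n := by
    rw [← Finset.sum_subset h2, ← h1, hm.2]
    intro j _ hj
    rw [Multiset.mem_toFinset] at hj
    rw [Multiset.count_eq_zero_of_notMem hj]
    simp
  have h4 : ((∑ j ∈ Finset.Icc 1 n, m.count j * j : ℕ) : ℝ) = n := by rw [h3]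
  rw [← h4]
  push_cast
  apply Finset.sum_congr rfl
  intro j _
  ring

theorem total (α : ℝ) (n : ℕ) (F : Multiset ℕ → ℝ) :
    (n : ℝ) * G α n F = α * ∑ j ∈ Finset.Icc 1 n, G α (n - j) (fun m => F (j ::ₘ m)) := by
  rw [Finset.mul_sum]
  have h1 : ∑ j ∈ Finset.Icc 1 n, α * G α (n - j) (fun m => F (j ::ₘ m)) =
      ∑ j ∈ Finset.Icc 1 n, ∑ m ∈ P n, ((j : ℝ) * m.count j) * F m * w α m := by
    apply Finset.sum_congr rfl
    intro j hj
    rw [Finset.mem_Icc] at hj
    rw [single α n j (by omega) hj.2 F]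
  rw [h1, Finset.sum_comm]
  unfold G
  rw [Finset.mul_sum]
  apply Finset.sum_congr rfl
  intro m hm
  have := sum_count hm
  rw [← Finset.sum_mul, ← Finset.sum_mul, this]
  ring

theorem P_zero : P 0 = {0} := by
  ext m
  rw [mem_P, Finset.mem_singleton]
  constructor
  · rintro ⟨h1, h2⟩
    rw [Multiset.eq_zero_iff_forall_notMem]
    intro i hi
    have := h1 i hi
    have h3 := Multiset.le_sum_of_mem hi
    omega
  · rintro rfl
    simp

theorem G_zero (α : ℝ) (F : Multiset ℕ → ℝ) : G α 0 F = F 0 := by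
  unfold G
  rw [P_zero, Finset.sum_singleton]
  simp [w, cf]

theorem G_nonneg {α : ℝ} (hα : 0 ≤ α) (n : ℕ) (F : Multiset ℕ → ℝ) (hF : ∀ m, 0 ≤ F m) :
    0 ≤ G α n F :=
  Finset.sum_nonneg fun m _ => mul_nonneg (hF m) (w_nonneg hα m)

theorem G_mono {α : ℝ} (hα : 0 ≤ α) (n : ℕ) (F F' : Multiset ℕ → ℝ)
    (hF : ∀ m ∈ P n, F m ≤ F' m) : G α n F ≤ G α n F' :=
  Finset.sum_le_sum fun m hm => mul_le_mul_of_nonneg_right (hF m hm) (w_nonneg hα m)

/-- total weight -/
def H (α : ℝ) (n : ℕ) : ℝ := G α n (fun _ => 1)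

theorem H_zero (α : ℝ) : H α 0 = 1 := G_zero α _

theorem H_rec (α : ℝ) (n : ℕ) : (n : ℝ) * H α n = α * ∑ i ∈ Finset.range n, H α i := by
  unfold H
  rw [total]
  congr 1
  refine Finset.sum_bij' (fun j _ => n - j) (fun i _ => n - i) ?_ ?_ ?_ ?_ ?_
  · intro j hj
    rw [Finset.mem_Icc] at hj
    rw [Finset.mem_range]
    omega
  · intro i hi
    rw [Finset.mem_range] at hi
    rw [Finset.mem_Icc]
    omega
  · intro j hj
    rw [Finset.mem_Icc] at hj
    omega
  · intro i hi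
    rw [Finset.mem_range] at hi
    omega
  · intro j hj
    rfl

theorem H_succ (α : ℝ) (n : ℕ) : ((n : ℝ) + 1) * H α (n + 1) = (α + n) * H α n := by
  have h1 := H_rec α (n + 1)
  rw [Finset.sum_range_succ, mul_add, ← H_rec α n] at h1
  push_cast at h1
  linarith

theorem H_prod (α : ℝ) (n : ℕ) : (n ! : ℝ) * H α n = ∏ i ∈ Finset.range n, (α + i) := by
  induction n with
  | zero => simp [H_zero]
  | succ n ih =>
    rw [Finset.prod_range_succ, ← ih, Nat.factorial_succ]
    push_cast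
    have := H_succ α n
    calc ((n : ℝ) + 1) * (n ! : ℝ) * H α (n + 1) = (n ! : ℝ) * (((n : ℝ) + 1) * H α (n + 1)) := by
          ring
      _ = (n ! : ℝ) * H α n * (α + n) := by rw [this]; ring

theorem H_pos {α : ℝ} (hα : 0 < α) (n : ℕ) : 0 < H α n := by
  have h1 := H_prod α n
  have h2 : 0 < ∏ i ∈ Finset.range n, (α + (i : ℝ)) := Finset.prod_pos fun i _ => by positivity
  rw [← h1] at h2
  have h3 : (0 : ℝ) < n ! := by positivity
  exact (mul_pos_iff_of_pos_left h3).1 h2

end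

end Pool.Agent.V11329.Ew
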