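import Pool.Agent.V11329.Ew.Prime

/-!
# From permutations to partitions
-/

set_option autoImplicit false

namespace Pool.Agent.V11329.Ew

open Finset Nat Equiv.Perm

noncomputable section

variable {n : ℕ}

/-- number of cycles of a permutation, fixed points included -/
def K (σ : Equiv.Perm (Fin n)) : ℕ :=
  Multiset.card σ.cycleType + (Finset.univ.filter fun x => σ x = x).card

/-- the multiset of all cycle lengths, fixed points included -/
def ty (σ : Equiv.Perm (Fin n)) : Multiset ℕ :=
  σ.cycleType + Multiset.replicate (n - σ.support.card) 1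

theorem supp_le (σ : Equiv.Perm (Fin n)) : σ.support.card ≤ n := by
  have := Finset.card_le_univ σ.support
  simpa using this

theorem fixed_card (σ : Equiv.Perm (Fin n)) :
    (Finset.univ.filter fun x => σ x = x).card = n - σ.support.card := by
  have h : σ.supportᶜ = Finset.univ.filter fun x => σ x = x := by
    ext x
    simp [Equiv.Perm.mem_support]
  rw [← h, Finset.card_compl, Fintype.card_fin]

theorem card_ty (σ : Equiv.Perm (Fin n)) : Multiset.card (ty σ) = K σ := by
  unfold ty K
  rw [Multiset.card_add, Multiset.card_replicate, fixed_card]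

theorem ty_mem (σ : Equiv.Perm (Fin n)) : ty σ ∈ P n := by
  rw [mem_P]
  constructor
  · intro i hi
    unfold ty at hi
    rw [Multiset.mem_add] at hi
    rcases hi with hi | hi
    · have := Equiv.Perm.two_le_of_mem_cycleType hi
      omega
    · rw [Multiset.eq_of_mem_replicate hi]
      exact Nat.one_pos
  · unfold ty
    rw [Multiset.sum_add, Equiv.Perm.sum_cycleType, Multiset.sum_replicate]
    have := supp_le σ
    simp only [smul_eq_mul, mul_one]
    omega

theorem filter_ty (σ : Equiv.Perm (Fin n)) : (ty σ).filter (fun i => i ≠ 1) = σ.cycleType := by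
  unfold ty
  rw [Multiset.filter_add]
  have h1 : σ.cycleType.filter (fun i => i ≠ 1) = σ.cycleType := by
    rw [Multiset.filter_eq_self]
    intro i hi
    have := Equiv.Perm.two_le_of_mem_cycleType hi
    omega
  have h2 : (Multiset.replicate (n - σ.support.card) 1).filter (fun i => i ≠ 1) = 0 := by
    rw [Multiset.filter_eq_nil]
    intro i hi
    rw [Multiset.eq_of_mem_replicate hi]
    simp
  rw [h1, h2, add_zero]

theorem split_ones (m : Multiset ℕ) :
    m.filter (fun i => i ≠ 1) + Multiset.replicate (m.count 1) 1 = m := by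
  conv_rhs => rw [← Multiset.filter_add_not (fun i => i ≠ 1) m]
  congr 1
  have : m.filter (fun i => ¬ i ≠ 1) = m.filter (fun i => i = 1) := by
    congr 1
    funext i
    simp
  rw [this, Multiset.filter_eq']

theorem ty_eq_iff (σ : Equiv.Perm (Fin n)) {m : Multiset ℕ} (hm : m ∈ P n) :
    ty σ = m ↔ σ.cycleType = m.filter (fun i => i ≠ 1) := by
  constructor
  · intro h
    rw [← h, filter_ty]
  · intro h
    have h1 := Equiv.Perm.sum_cycleType σ
    have h2 := split_ones m
    have h3 := congrArg Multiset.sum h2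
    rw [mem_P] at hm
    rw [Multiset.sum_add, ← h, h1, hm.2, Multiset.sum_replicate] at h3
    simp only [smul_eq_mul, mul_one] at h3
    unfold ty
    rw [h]
    have h4 : n - σ.support.card = m.count 1 := by omega
    rw [h4, h2]

theorem card_fiber {m : Multiset ℕ} (hm : m ∈ P n) :
    (((Finset.univ : Finset (Equiv.Perm (Fin n))).filter (fun σ => ty σ = m)).card : ℝ) *
      ((m.prod : ℝ) * cf m) = (n ! : ℝ) := by
  classical
  set m' := m.filter (fun i => i ≠ 1) with hm'
  have hs := split_ones m
  rw [← hm'] at hs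
  have h1 : (Finset.univ : Finset (Equiv.Perm (Fin n))).filter (fun σ => ty σ = m) =
      (Finset.univ : Finset (Equiv.Perm (Fin n))).filter (fun σ => σ.cycleType = m') := by
    apply Finset.filter_congr
    intro σ _
    exact ty_eq_iff σ hm
  rw [h1]
  have h2 := Equiv.Perm.card_of_cycleType_mul_eq (Fin n) m'
  have hsum : m'.sum + m.count 1 = n := by
    rw [mem_P] at hm
    have := congrArg Multiset.sum hs
    rw [Multiset.sum_add, Multiset.sum_replicate, hm.2] at this
    simpa using this
  have hcond : m'.sum ≤ Fintype.card (Fin n) ∧ ∀ a ∈ m', 2 ≤ a := by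
    rw [Fintype.card_fin]
    refine ⟨by omega, fun a ha => ?_⟩
    rw [hm', Multiset.mem_filter] at ha
    rw [mem_P] at hm
    have := hm.1 a ha.1
    have := ha.2
    omega
  rw [if_pos hcond, Fintype.card_fin] at h2
  have h3 : m.prod = m'.prod := by
    have := congrArg Multiset.prod hs
    rw [Multiset.prod_add, Multiset.prod_replicate, one_pow, mul_one] at this
    exact this.symm
  have h4 : cf m = ((n - m'.sum)! : ℝ) * ∏ i ∈ m'.toFinset, ((m'.count i)! : ℝ) := by
    have h1n : 1 ∉ m'.toFinset := by
      rw [Multiset.mem_toFinset, hm', Multiset.mem_filter]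
      simp
    have hsub : m.toFinset ⊆ insert 1 m'.toFinset := by
      intro i hi
      rw [Multiset.mem_toFinset] at hi
      rw [Finset.mem_insert, Multiset.mem_toFinset, hm', Multiset.mem_filter]
      by_cases h : i = 1
      · left; exact h
      · right; exact ⟨hi, h⟩
    rw [← cf_eq m _ hsub, Finset.prod_insert h1n]
    have h5 : n - m'.sum = m.count 1 := by omega
    rw [h5]
    congr 1
    apply Finset.prod_congr rfl
    intro i hi
    have hi1 : i ≠ 1 := by
      rintro rfl
      exact h1n hi
    rw [hm', Multiset.count_filter, if_pos hi1]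
  rw [h3, h4, ← h2]
  push_cast
  ring

theorem transfer (α : ℝ) (F : Multiset ℕ → ℝ) :
    ∑ σ : Equiv.Perm (Fin n), α ^ (K σ) * F (ty σ) = (n ! : ℝ) * G α n F := by
  classical
  have h1 := Finset.sum_fiberwise_of_maps_to (s := (Finset.univ : Finset (Equiv.Perm (Fin n))))
    (t := P n) (g := fun σ => ty σ) (fun σ _ => ty_mem σ) (fun σ => α ^ (K σ) * F (ty σ))
  rw [← h1]
  unfold G
  rw [Finset.mul_sum]
  apply Finset.sum_congr rfl
  intro m hm
  have h2 : ∑ σ ∈ (Finset.univ : Finset (Equiv.Perm (Fin n))).filter (fun σ => ty σ = m),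
      α ^ (K σ) * F (ty σ) =
      (((Finset.univ : Finset (Equiv.Perm (Fin n))).filter (fun σ => ty σ = m)).card : ℝ) *
        (α ^ (Multiset.card m) * F m) := by
    rw [← nsmul_eq_mul, ← Finset.sum_const]
    apply Finset.sum_congr rfl
    intro σ hσ
    rw [Finset.mem_filter] at hσ
    rw [← card_ty, hσ.2]
  rw [h2]
  have h3 := card_fiber hm
  have hpos : (0 : ℝ) < (m.prod : ℝ) * cf m := by
    have h4 := cf_pos m
    have h5 : 0 < m.prod := by
      rw [mem_P] at hm
      exact Multiset.prod_pos hm.1
    have h6 : (0 : ℝ) < (m.prod : ℝ) := by exact_mod_cast h5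
    positivity
  unfold w
  rw [← h3]
  generalize (m.prod : ℝ) * cf m = q at hpos
  field_simp

/-- Ewens probability of a permutation -/
def ewens (α : ℝ) (σ : Equiv.Perm (Fin n)) : ℝ :=
  α ^ (K σ) / ∏ i ∈ Finset.range n, (α + (i : ℝ))

theorem ewens_nonneg {α : ℝ} (hα : 0 ≤ α) (σ : Equiv.Perm (Fin n)) : 0 ≤ ewens α σ := by
  unfold ewens
  exact div_nonneg (by positivity) (Finset.prod_nonneg fun i _ => by positivity)

theorem ewens_sum {α : ℝ} (hα : 0 < α) (F : Multiset ℕ → ℝ) :
    ∑ σ : Equiv.Perm (Fin n), ewens α σ * F (ty σ) = G α n F / H α n := by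
  have h1 : ∀ σ : Equiv.Perm (Fin n), ewens α σ * F (ty σ) =
      (α ^ (K σ) * F (ty σ)) / ∏ i ∈ Finset.range n, (α + (i : ℝ)) := by
    intro σ
    unfold ewens
    ring
  simp_rw [h1]
  rw [← Finset.sum_div, transfer, ← H_prod]
  have h2 := (H_pos hα n).ne'
  have h3 : (n ! : ℝ) ≠ 0 := by positivity
  field_simp

theorem ewens_total {α : ℝ} (hα : 0 < α) : ∑ σ : Equiv.Perm (Fin n), ewens α σ = 1 := by
  have h := ewens_sum (n := n) hα (fun _ => 1)
  simp only [mul_one] at h
  rw [h]
  exact div_self (H_pos hα n).ne'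

/-! ### invariant sets -/

theorem inv_le (σ : Equiv.Perm (Fin n)) (X : Finset (Fin n)) (hX : ∀ x ∈ X, σ x ∈ X)
    (y : ℕ) (hy : X.card ≤ y) : X.card ≤ L y (ty σ) := by
  classical
  rcases X.eq_empty_or_nonempty with rfl | hne
  · simp
  have hy1 : 1 ≤ y := le_trans (Finset.card_pos.2 hne) hy
  have hL : L y (ty σ) = (∑ c ∈ σ.cycleFactorsFinset.filter (fun c => c.support.card ≤ y),
      c.support.card) + (n - σ.support.card) := by
    unfold L ty
    rw [Multiset.filter_add, Multiset.sum_add]
    congr 1
    · rw [Equiv.Perm.cycleType_def, Multiset.filter_map]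
      rfl
    · have : (Multiset.replicate (n - σ.support.card) 1).filter (fun i => i ≤ y) =
          Multiset.replicate (n - σ.support.card) 1 := by
        rw [Multiset.filter_eq_self]
        intro i hi
        rw [Multiset.eq_of_mem_replicate hi]
        exact hy1
      rw [this, Multiset.sum_replicate]
      simp
  have hpow : ∀ (k : ℕ) (x : Fin n), x ∈ X → (σ ^ k) x ∈ X := by
    intro k
    induction k with
    | zero => intro x hx; simpa using hx
    | succ k ih =>
      intro x hx
      rw [_root_.pow_succ']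
      exact hX _ (ih x hx)
  have hsub : X ⊆ (Finset.univ.filter fun x => σ x = x) ∪
      (σ.cycleFactorsFinset.filter (fun c => c.support.card ≤ y)).biUnion (fun c => c.support) := by
    intro x hx
    rw [Finset.mem_union]
    by_cases hfix : σ x = x
    · left
      simp [hfix]
    · right
      rw [Finset.mem_biUnion]
      refine ⟨σ.cycleOf x, ?_, ?_⟩
      · rw [Finset.mem_filter]
        refine ⟨?_, ?_⟩
        · rw [Equiv.Perm.cycleOf_mem_cycleFactorsFinset_iff, Equiv.Perm.mem_support]
          exact hfix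
        · refine le_trans (Finset.card_le_card ?_) hy
          intro z hz
          rw [Equiv.Perm.mem_support_cycleOf_iff] at hz
          obtain ⟨k, hk⟩ := hz.1.exists_pow_eq'
          rw [← hk.2]
          exact hpow k x hx
      · rw [Equiv.Perm.mem_support_cycleOf_iff]
        exact ⟨Equiv.Perm.SameCycle.refl _ _, by rw [Equiv.Perm.mem_support]; exact hfix⟩
  rw [hL]
  calc X.card ≤ _ := Finset.card_le_card hsub
    _ ≤ _ := Finset.card_union_le _ _
    _ ≤ (n - σ.support.card) + ∑ c ∈ σ.cycleFactorsFinset.filter (fun c => c.support.card ≤ y),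
        c.support.card := by
        rw [fixed_card]
        exact Nat.add_le_add_left Finset.card_biUnion_le _
    _ = _ := by ring

theorem A_zero (σ : Equiv.Perm (Fin n)) (X : Finset (Fin n)) (hX : ∀ x ∈ X, σ x ∈ X)
    (x : ℕ) (h1 : x ≤ X.card) (h2 : X.card ≤ 2 * x) : A x (ty σ) = 0 := by
  unfold A
  rw [if_neg]
  have := inv_le σ X hX (2 * x) h2
  omega

/-! ### prime parts -/

theorem mem_ty_prime (σ : Equiv.Perm (Fin n)) {p : ℕ} (hp : 2 ≤ p) (h : p ∈ ty σ) :
    p ∈ σ.cycleType := by
  unfold ty at h
  rw [Multiset.mem_add] at h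
  rcases h with h | h
  · exact h
  · have := Multiset.eq_of_mem_replicate h
    omega

theorem pow_ne_one (σ : Equiv.Perm (Fin n)) {p : ℕ} (hp : p.Prime) (h2 : n < 2 * p)
    (h : p ∈ ty σ) (hne : ty σ ≠ p ::ₘ Multiset.replicate (n - p) 1) : σ ^ p ≠ 1 := by
  intro hpow
  apply hne
  have hc := mem_ty_prime σ hp.two_le h
  have hall : ∀ i ∈ σ.cycleType, i = p := by
    intro i hi
    have h3 : i ∣ orderOf σ := Equiv.Perm.dvd_of_mem_cycleType hi
    have h4 : orderOf σ ∣ p := orderOf_dvd_of_pow_eq_one hpow
    have h5 := (Nat.dvd_prime hp).1 (h3.trans h4)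
    have h6 := Equiv.Perm.two_le_of_mem_cycleType hi
    omega
  have h7 := Multiset.eq_replicate_card.2 hall
  have h8 := Equiv.Perm.sum_cycleType σ
  rw [h7, Multiset.sum_replicate, smul_eq_mul] at h8
  have h9 := supp_le σ
  have h10 : 0 < Multiset.card σ.cycleType := Multiset.card_pos.2 (by
    intro h0
    rw [h0] at hc
    exact absurd hc (Multiset.notMem_zero _))
  have h11 : Multiset.card σ.cycleType = 1 := by
    by_contra hcon
    have : 2 ≤ Multiset.card σ.cycleType := by omega
    nlinarith
  rw [h11, one_mul] at h8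
  unfold ty
  rw [h7, h11, ← h8]
  simp

/-! ### parity -/

theorem E_one (σ : Equiv.Perm (Fin n)) (h : sign σ = 1) : E n (ty σ) = 1 := by
  unfold E
  rw [if_pos]
  have h1 := Equiv.Perm.sign_of_cycleType σ
  rw [h, Equiv.Perm.sum_cycleType] at h1
  have h2 : Even (σ.support.card + Multiset.card σ.cycleType) := by
    by_contra hodd
    rw [Nat.not_even_iff_odd] at hodd
    rw [hodd.neg_one_pow] at h1
    exact absurd h1 (by decide)
  rw [card_ty]
  unfold K
  rw [fixed_card]
  have h3 := supp_le σ
  obtain ⟨a, ha⟩ := h2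
  have : n + (Multiset.card σ.cycleType + (n - σ.support.card)) =
      2 * (n - σ.support.card) + (σ.support.card + Multiset.card σ.cycleType) := by omega
  rw [this, ha]
  exact ⟨n - σ.support.card + a, by ring⟩

end

end Pool.Agent.V11329.Ew
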