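import Pool.Agent.V11329.Ew.Seq

/-!
# Large prime parts and parity
-/

set_option autoImplicit false

namespace Pool.Agent.V11329.Ew

open Finset Nat
open scoped Classical

noncomputable section

theorem w_ones (α : ℝ) (k : ℕ) : w α (Multiset.replicate k 1) = α ^ k / (k ! : ℝ) := by
  unfold w
  have h1 : cf (Multiset.replicate k 1) = (k ! : ℝ) := by
    rw [← cf_eq (Multiset.replicate k 1) {1}]
    · simp
    · intro i hi
      rw [Multiset.mem_toFinset] at hi
      rw [Finset.mem_singleton]
      exact Multiset.eq_of_mem_replicate hi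
  rw [h1]
  simp

theorem ones_mem (k : ℕ) : Multiset.replicate k 1 ∈ P k := by
  rw [mem_P]
  refine ⟨fun i hi => ?_, by simp⟩
  rw [Multiset.eq_of_mem_replicate hi]
  exact Nat.one_pos

theorem G_ne_ones (α : ℝ) (k : ℕ) :
    G α k (fun m => if m = Multiset.replicate k 1 then 0 else 1) = H α k - α ^ k / (k ! : ℝ) := by
  have h1 : G α k (fun m => if m = Multiset.replicate k 1 then (0 : ℝ) else 1) +
      w α (Multiset.replicate k 1) = H α k := by
    unfold H G
    have h2 : w α (Multiset.replicate k 1) =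
        ∑ m ∈ P k, (if m = Multiset.replicate k 1 then (1 : ℝ) else 0) * w α m := by
      rw [Finset.sum_eq_single (Multiset.replicate k 1)]
      · simp
      · intro m _ hm
        simp [hm]
      · intro h
        exact absurd (ones_mem k) h
    rw [h2, ← Finset.sum_add_distrib]
    apply Finset.sum_congr rfl
    intro m _
    by_cases h : m = Multiset.replicate k 1
    · simp [h]
    · simp [h]
  rw [w_ones] at h1
  linarith

/-- a partition with a part in `Q` and not just that part and ones -/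
def B (n : ℕ) (Q : Finset ℕ) (m : Multiset ℕ) : ℝ :=
  if ∃ p ∈ Q, p ∈ m ∧ m ≠ p ::ₘ Multiset.replicate (n - p) 1 then 1 else 0

theorem B_nonneg (n : ℕ) (Q : Finset ℕ) (m : Multiset ℕ) : 0 ≤ B n Q m := by
  unfold B; split_ifs <;> norm_num

theorem B_ge {n : ℕ} (Q : Finset ℕ) (hQ : ∀ p ∈ Q, n < 2 * p ∧ p ≤ n) {m : Multiset ℕ}
    (hm : m ∈ P n) :
    ∑ p ∈ Q, (m.count p : ℝ) * (if m = p ::ₘ Multiset.replicate (n - p) 1 then 0 else 1) ≤
      B n Q m := by
  by_cases hB : ∃ p ∈ Q, p ∈ m ∧ m ≠ p ::ₘ Multiset.replicate (n - p) 1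
  · unfold B
    rw [if_pos hB]
    have h1 : ∑ p ∈ Q, (m.count p : ℝ) * (if m = p ::ₘ Multiset.replicate (n - p) 1 then 0 else 1)
        ≤ ∑ p ∈ Q, (m.count p : ℝ) := by
      apply Finset.sum_le_sum
      intro p _
      split_ifs
      · simp
      · simp
    refine h1.trans ?_
    have h2 := sum_count hm
    have hnat : ∑ j ∈ Finset.Icc 1 n, j * m.count j = n := by
      have : ((∑ j ∈ Finset.Icc 1 n, j * m.count j : ℕ) : ℝ) = n := by
        push_cast
        exact h2
      exact_mod_cast this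
    have hn0 : 0 < n := by
      obtain ⟨p, hp, _⟩ := hB
      have := hQ p hp
      omega
    have h3 : ∑ p ∈ Q, p * m.count p ≤ n := by
      conv_rhs => rw [← hnat]
      apply Finset.sum_le_sum_of_subset_of_nonneg
      · intro p hp
        have := hQ p hp
        rw [Finset.mem_Icc]
        omega
      · intro i _ _
        exact Nat.zero_le _
    have h4 : ∑ p ∈ Q, m.count p ≤ 1 := by
      by_contra hc
      push Not at hc
      have h5 : n * ∑ p ∈ Q, m.count p < 2 * ∑ p ∈ Q, p * m.count p := by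
        rw [Finset.mul_sum, Finset.mul_sum]
        apply Finset.sum_lt_sum
        · intro p hp
          have := hQ p hp
          nlinarith
        · obtain ⟨p, hp, hpm, _⟩ := hB
          refine ⟨p, hp, ?_⟩
          have := hQ p hp
          have h6 : 0 < m.count p := Multiset.count_pos.2 hpm
          nlinarith
      nlinarith
    exact_mod_cast h4
  · unfold B
    rw [if_neg hB]
    push Not at hB
    apply Finset.sum_nonpos
    intro p hp
    by_cases h : p ∈ m
    · rw [if_pos (hB p hp h)]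
      simp
    · rw [Multiset.count_eq_zero_of_notMem h]
      simp

theorem G_B_ge {α : ℝ} (hα : 0 ≤ α) (n : ℕ) (Q : Finset ℕ) (hQ : ∀ p ∈ Q, n < 2 * p ∧ p ≤ n) :
    ∑ p ∈ Q, α / p * (H α (n - p) - α ^ (n - p) / ((n - p)! : ℝ)) ≤ G α n (B n Q) := by
  have h1 : ∑ p ∈ Q, α / p * (H α (n - p) - α ^ (n - p) / ((n - p)! : ℝ)) =
      ∑ m ∈ P n, (∑ p ∈ Q, (m.count p : ℝ) *
        (if m = p ::ₘ Multiset.replicate (n - p) 1 then 0 else 1)) * w α m := by
    simp_rw [Finset.sum_mul]
    rw [Finset.sum_comm]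
    apply Finset.sum_congr rfl
    intro p hp
    have hp' := hQ p hp
    have hp0 : 0 < p := by omega
    have hpr : (0 : ℝ) < p := by exact_mod_cast hp0
    have e := single α n p hp0 hp'.2
      (fun m => if m = p ::ₘ Multiset.replicate (n - p) 1 then 0 else 1)
    have e2 : G α (n - p) (fun m => if p ::ₘ m = p ::ₘ Multiset.replicate (n - p) 1
        then (0 : ℝ) else 1) = H α (n - p) - α ^ (n - p) / ((n - p)! : ℝ) := by
      rw [← G_ne_ones]
      congr 1
      funext m
      simp only [Multiset.cons_inj_right]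
    rw [e2] at e
    have e3 : ∑ m ∈ P n, ((m.count p : ℝ) *
        (if m = p ::ₘ Multiset.replicate (n - p) 1 then 0 else 1)) * w α m =
        (1 / p) * ∑ m ∈ P n, ((p : ℝ) * m.count p) *
          (if m = p ::ₘ Multiset.replicate (n - p) 1 then 0 else 1) * w α m := by
      rw [Finset.mul_sum]
      apply Finset.sum_congr rfl
      intro m _
      field_simp
    rw [e3, e]
    ring
  rw [h1]
  unfold G
  apply Finset.sum_le_sum
  intro m hm
  exact mul_le_mul_of_nonneg_right (B_ge Q hQ hm) (w_nonneg hα m)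

/-- constant in the prime estimate -/
def c1 (α : ℝ) : ℝ := α / 2 / (4 * α * Real.exp 1) ^ (α - 1)

theorem c1_pos {α : ℝ} (hα : 1 ≤ α) : 0 < c1 α := by
  unfold c1
  have : 0 < α := by linarith
  positivity

theorem half_bound (α : ℝ) (hα : 1 ≤ α) :
    ∃ k0 : ℕ, ∀ k ≥ k0, α ^ k / (k ! : ℝ) ≤ H α k / 2 := by
  have h1 := FloorSemiring.tendsto_pow_div_factorial_atTop α
  have h2 := h1.eventually (gt_mem_nhds (show (0 : ℝ) < 1 / 2 by norm_num))
  rw [Filter.eventually_atTop] at h2
  obtain ⟨k1, hk1⟩ := h2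
  obtain ⟨k2, hk2⟩ := exists_nat_ge α
  refine ⟨max (max k1 k2) 1, fun k hk => ?_⟩
  have a1 : k1 ≤ k := le_trans (le_trans (le_max_left _ _) (le_max_left _ _)) hk
  have a2 : k2 ≤ k := le_trans (le_trans (le_max_right _ _) (le_max_left _ _)) hk
  have a3 : 1 ≤ k := le_trans (le_max_right _ _) hk
  have h3 := hk1 k a1
  have h4 := H_lower α hα k a3
  have h5 : (1 : ℝ) ≤ ((k : ℝ) / α) ^ (α - 1) := by
    apply Real.one_le_rpow _ (by linarith)
    rw [le_div_iff₀ (by linarith), one_mul]
    exact hk2.trans (by exact_mod_cast a2)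
  linarith

theorem B_lower (α : ℝ) (hα : 1 ≤ α) : ∃ n0 : ℕ, ∀ n ≥ n0, ∀ Q : Finset ℕ,
    (∀ p ∈ Q, n < 2 * p ∧ 4 * p ≤ 3 * n) →
    c1 α * ((Q.card : ℝ) / n) * H α n ≤ G α n (B n Q) := by
  obtain ⟨k0, hk0⟩ := half_bound α hα
  refine ⟨4 * k0 + 4, fun n hn Q hQ => ?_⟩
  have h0 : 0 < α := by linarith
  have hn0 : (0 : ℝ) < n := by
    have : 0 < n := by omega
    exact_mod_cast this
  refine le_trans ?_ (G_B_ge h0.le n Q (fun p hp => ⟨(hQ p hp).1, by have := hQ p hp; omega⟩))
  have h1 : ∀ p ∈ Q, c1 α / n * H α n ≤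
      α / p * (H α (n - p) - α ^ (n - p) / ((n - p)! : ℝ)) := by
    intro p hp
    have hp' := hQ p hp
    have hp0 : (0 : ℝ) < p := by
      have : 0 < p := by omega
      exact_mod_cast this
    have h2 := hk0 (n - p) (by omega)
    have h3 : H α (n - p) / 2 ≤ H α (n - p) - α ^ (n - p) / ((n - p)! : ℝ) := by linarith
    have h4 := H_lower α hα (n - p) (by omega)
    have h5 : ((n : ℝ) / (4 * α)) ^ (α - 1) ≤ (((n - p : ℕ) : ℝ) / α) ^ (α - 1) := by
      apply Real.rpow_le_rpow (by positivity) _ (by linarith)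
      rw [div_le_div_iff₀ (by positivity) h0]
      have : (n : ℝ) ≤ 4 * ((n - p : ℕ) : ℝ) := by
        have : n ≤ 4 * (n - p) := by omega
        exact_mod_cast this
      nlinarith
    have h6 := H_upper α hα n (by omega)
    have h7 : H α n / (4 * α * Real.exp 1) ^ (α - 1) ≤ ((n : ℝ) / (4 * α)) ^ (α - 1) := by
      rw [div_le_iff₀ (by positivity), ← Real.mul_rpow (by positivity) (by positivity)]
      refine h6.trans (le_of_eq ?_)
      congr 1
      field_simp
    have h8 : α / n ≤ α / p := by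
      apply div_le_div_of_nonneg_left h0.le hp0
      have : p ≤ n := by omega
      exact_mod_cast this
    have h9 : 0 ≤ H α (n - p) := (H_pos h0 _).le
    calc c1 α / n * H α n = α / n * (H α n / (4 * α * Real.exp 1) ^ (α - 1) / 2) := by
          unfold c1; ring
      _ ≤ α / n * (H α (n - p) / 2) := by
          apply mul_le_mul_of_nonneg_left _ (by positivity)
          linarith
      _ ≤ α / p * (H α (n - p) / 2) := mul_le_mul_of_nonneg_right h8 (by linarith)
      _ ≤ _ := mul_le_mul_of_nonneg_left h3 (by positivity)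
  calc c1 α * ((Q.card : ℝ) / n) * H α n = ∑ _p ∈ Q, c1 α / n * H α n := by
        rw [Finset.sum_const, nsmul_eq_mul]; ring
    _ ≤ _ := Finset.sum_le_sum h1

theorem w_neg (α : ℝ) (m : Multiset ℕ) : w (-α) m = (-1) ^ (Multiset.card m) * w α m := by
  unfold w
  rw [neg_pow]
  ring

theorem sgn_eq (α : ℝ) (n : ℕ) :
    G α n (fun m => (-1) ^ (n + Multiset.card m)) = (-1) ^ n * H (-α) n := by
  unfold H G
  rw [Finset.mul_sum]
  apply Finset.sum_congr rfl
  intro m _
  dsimp only
  rw [w_neg, pow_add]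
  ring

theorem H_neg_le {α : ℝ} (hα : 1 ≤ α) (n : ℕ) (hn : 2 ≤ n) :
    |H (-α) n| ≤ (α - 1) / (α + 1) * H α n := by
  have h0 : 0 < α := by linarith
  induction n, hn using Nat.le_induction with
  | base =>
    have e1 := H_prod α 2
    have e2 := H_prod (-α) 2
    rw [Finset.prod_range_succ, Finset.prod_range_succ, Finset.prod_range_zero] at e1 e2
    simp only [Nat.factorial_two] at e1 e2
    push_cast at e1 e2
    have e3 : H α 2 = α * (α + 1) / 2 := by linarith
    have e4 : H (-α) 2 = α * (α - 1) / 2 := by linarith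
    rw [e3, e4, abs_of_nonneg (by nlinarith)]
    apply le_of_eq
    field_simp
  | succ n hn ih =>
    have e1 := H_succ α n
    have e2 := H_succ (-α) n
    have hn1 : (0 : ℝ) < (n : ℝ) + 1 := by positivity
    have e3 : |H (-α) (n + 1)| * (n + 1) = |(-α + n)| * |H (-α) n| := by
      rw [← abs_mul, ← e2, abs_mul, abs_of_pos hn1, mul_comm]
    have e4 : |(-α + (n : ℝ))| ≤ α + n := by
      have : (0 : ℝ) ≤ n := by positivity
      rw [abs_le]; constructor <;> linarith
    have e5 : |H (-α) (n + 1)| * (n + 1) ≤ (α - 1) / (α + 1) * H α (n + 1) * (n + 1) := by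
      rw [e3]
      calc |(-α + (n : ℝ))| * |H (-α) n| ≤ (α + n) * ((α - 1) / (α + 1) * H α n) :=
            mul_le_mul e4 ih (abs_nonneg _) (by positivity)
        _ = (α - 1) / (α + 1) * ((α + n) * H α n) := by ring
        _ = _ := by rw [← e1]; ring
    exact le_of_mul_le_mul_right e5 hn1

/-- parity indicator -/
def E (n : ℕ) (m : Multiset ℕ) : ℝ := if Even (n + Multiset.card m) then 1 else 0

theorem E_upper {α : ℝ} (hα : 1 ≤ α) (n : ℕ) (hn : 2 ≤ n) :
    G α n (E n) ≤ α / (α + 1) * H α n := by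
  have h1 : G α n (E n) = (H α n + (-1) ^ n * H (-α) n) / 2 := by
    rw [← sgn_eq]
    unfold H G
    rw [← Finset.sum_add_distrib, Finset.sum_div]
    apply Finset.sum_congr rfl
    intro m _
    unfold E
    dsimp only
    split_ifs with h
    · rw [h.neg_one_pow]; ring
    · rw [Nat.not_even_iff_odd] at h
      rw [h.neg_one_pow]; ring
  rw [h1]
  have h2 := H_neg_le hα n hn
  have h3 : (-1) ^ n * H (-α) n ≤ (α - 1) / (α + 1) * H α n := by
    refine le_trans (le_abs_self _) ?_
    rw [abs_mul, abs_pow, abs_neg, abs_one, one_pow, one_mul]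
    exact h2
  have h4 : (0 : ℝ) < α + 1 := by linarith
  have h5 : α / (α + 1) * H α n = (H α n + (α - 1) / (α + 1) * H α n) / 2 := by
    field_simp
    ring
  rw [h5]
  linarith

end

end Pool.Agent.V11329.Ew
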