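import Pool.Agent.V11329.Ew.Part

/-!
# Growth of the weights
-/

set_option autoImplicit false

namespace Pool.Agent.V11329.Ew

open Finset Nat

noncomputable section

theorem bern {α y d : ℝ} (hα : 1 ≤ α) (hy : 0 < y) (hd : d ≤ y) :
    y ^ α * (1 - α * d / y) ≤ (y - d) ^ α := by
  have h1 : (-1 : ℝ) ≤ -(d / y) := by
    rw [neg_le_neg_iff, div_le_one hy]
    exact hd
  have h2 := one_add_mul_self_le_rpow_one_add h1 hα
  have h3 : (y - d) = y * (1 + -(d / y)) := by field_simp; ring
  rw [h3, Real.mul_rpow hy.le (by linarith)]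
  apply mul_le_mul_of_nonneg_left _ (by positivity)
  calc 1 - α * d / y = 1 + α * -(d / y) := by ring
    _ ≤ _ := h2

theorem growth (α : ℝ) (hα : 1 ≤ α) (d N0 N1 : ℕ) (hd : 1 ≤ d)
    (hN1 : N0 + d ≤ N1 + 1) (T : ℝ) (hT : 0 ≤ T) (S : ℕ → ℝ)
    (h1 : ∀ N, N0 ≤ N → T ≤ S N)
    (h2 : ∀ N, N1 < N → S (N - 1) + α / N * S (N - d) ≤ S N) :
    ∀ N, N0 ≤ N → T * (((N : ℝ) + α * d) / (N1 + α * d)) ^ α ≤ S N := by
  intro N
  induction N using Nat.strong_induction_on with
  | _ N ih =>
    intro hN
    have hK : (1 : ℝ) ≤ α * d := by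
      have : (1 : ℝ) ≤ d := by exact_mod_cast hd
      nlinarith
    have hD : (0 : ℝ) < N1 + α * d := by positivity
    by_cases hle : N ≤ N1
    · have h3 : (((N : ℝ) + α * d) / (N1 + α * d)) ^ α ≤ 1 := by
        apply Real.rpow_le_one (by positivity) _ (by linarith)
        rw [div_le_one hD]
        have : (N : ℝ) ≤ N1 := by exact_mod_cast hle
        linarith
      calc T * (((N : ℝ) + α * d) / (N1 + α * d)) ^ α ≤ T * 1 :=
            mul_le_mul_of_nonneg_left h3 hT
        _ = T := mul_one T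
        _ ≤ S N := h1 N hN
    · push Not at hle
      have hNpos : (0 : ℝ) < N := by
        have : 0 < N := by omega
        exact_mod_cast this
      have e1 := ih (N - 1) (by omega) (by omega)
      have e2 := ih (N - d) (by omega) (by omega)
      refine le_trans ?_ (h2 N hle)
      have c1 : ((N - 1 : ℕ) : ℝ) = N - 1 := by
        rw [Nat.cast_sub (by omega)]; simp
      have c2 : ((N - d : ℕ) : ℝ) = N - d := by
        rw [Nat.cast_sub (by omega)]
      rw [c1] at e1
      rw [c2] at e2
      set y : ℝ := N + α * d with hy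
      have hy0 : 0 < y := by positivity
      have hdy : (d : ℝ) ≤ y := by
        have : (0 : ℝ) ≤ d := by positivity
        nlinarith
      have h1y : (1 : ℝ) ≤ y := by linarith
      have b1 := bern hα hy0 h1y
      have b2 := bern hα hy0 hdy
      have r1 : (N : ℝ) - 1 + α * d = y - 1 := by rw [hy]; ring
      have r2 : (N : ℝ) - d + α * d = y - d := by rw [hy]; ring
      rw [r1] at e1
      rw [r2] at e2
      rw [Real.div_rpow (by linarith) hD.le] at e1 e2
      rw [Real.div_rpow hy0.le hD.le]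
      have hDα : (0 : ℝ) < (N1 + α * d) ^ α := by positivity
      have key : y ^ α ≤ (y - 1) ^ α + α / N * (y - d) ^ α := by
        have b2' : y ^ α * (N / y) ≤ (y - d) ^ α := by
          refine le_trans (le_of_eq ?_) b2
          congr 1
          rw [eq_comm, ← sub_eq_zero]
          field_simp
          rw [hy]; ring
        have b3 : α / N * (y ^ α * (N / y)) ≤ α / N * (y - d) ^ α :=
          mul_le_mul_of_nonneg_left b2' (by positivity)
        have b4 : α / N * (y ^ α * (N / y)) = y ^ α * (α / y) := by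
          field_simp
        calc y ^ α = y ^ α * (1 - α * 1 / y) + y ^ α * (α / y) := by ring
          _ ≤ _ := by
            rw [← b4]
            exact add_le_add b1 b3
      calc T * (y ^ α / (N1 + α * d) ^ α)
          ≤ T * (((y - 1) ^ α + α / N * (y - d) ^ α) / (N1 + α * d) ^ α) := by
            apply mul_le_mul_of_nonneg_left _ hT
            exact div_le_div_of_nonneg_right key hDα.le
        _ = T * ((y - 1) ^ α / (N1 + α * d) ^ α) +
            α / N * (T * ((y - d) ^ α / (N1 + α * d) ^ α)) := by ring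
        _ ≤ S (N - 1) + α / N * S (N - d) := by
            have : α / N * (T * ((y - d) ^ α / (N1 + α * d) ^ α)) ≤ α / N * S (N - d) :=
              mul_le_mul_of_nonneg_left e2 (by positivity)
            linarith

theorem H_sum_lower (α : ℝ) (hα : 1 ≤ α) (N : ℕ) :
    (((N : ℝ) + α) / α) ^ α ≤ ∑ i ∈ Finset.range (N + 1), H α i := by
  have h := growth α hα 1 0 0 le_rfl (by omega) 1 zero_le_one
    (fun N => ∑ i ∈ Finset.range (N + 1), H α i) ?_ ?_ N (Nat.zero_le _)
  · simpa using h
  · intro N _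
    calc (1 : ℝ) = H α 0 := (H_zero α).symm
      _ ≤ _ := Finset.single_le_sum (f := fun i => H α i)
        (fun i _ => (H_pos (by linarith) i).le) (by simp)
  · intro N hN
    obtain ⟨M, rfl⟩ : ∃ M, N = M + 1 := ⟨N - 1, by omega⟩
    simp only [Nat.add_sub_cancel]
    rw [Finset.sum_range_succ _ (M + 1)]
    have h1 := H_rec α (M + 1)
    have h2 : (0 : ℝ) < ((M + 1 : ℕ) : ℝ) := by positivity
    have h3 : H α (M + 1) = α / ((M + 1 : ℕ) : ℝ) * ∑ i ∈ Finset.range (M + 1), H α i := by
      field_simp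
      linarith
    rw [← h3]

theorem H_lower (α : ℝ) (hα : 1 ≤ α) (m : ℕ) (hm : 1 ≤ m) :
    ((m : ℝ) / α) ^ (α - 1) ≤ H α m := by
  obtain ⟨M, rfl⟩ : ∃ M, m = M + 1 := ⟨m - 1, by omega⟩
  have h0 : 0 < α := by linarith
  have h1 := H_rec α (M + 1)
  have h2 : (0 : ℝ) < ((M + 1 : ℕ) : ℝ) := by positivity
  have h3 : H α (M + 1) = α / ((M + 1 : ℕ) : ℝ) * ∑ i ∈ Finset.range (M + 1), H α i := by
    field_simp
    linarith
  rw [h3]
  have h4 := H_sum_lower α hα M
  have h5 : (((M + 1 : ℕ) : ℝ) / α) ^ α ≤ (((M : ℝ) + α) / α) ^ α := by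
    apply Real.rpow_le_rpow (by positivity) _ h0.le
    apply div_le_div_of_nonneg_right _ h0.le
    push_cast
    linarith
  have h6 : ((((M + 1 : ℕ) : ℝ)) / α) ^ (α - 1) =
      α / ((M + 1 : ℕ) : ℝ) * (((M + 1 : ℕ) : ℝ) / α) ^ α := by
    rw [Real.rpow_sub_one (by positivity)]
    field_simp
  rw [h6]
  exact mul_le_mul_of_nonneg_left (h5.trans h4) (by positivity)

theorem H_upper (α : ℝ) (hα : 1 ≤ α) (n : ℕ) (hn : 1 ≤ n) :
    H α n ≤ (Real.exp 1 * n) ^ (α - 1) := by
  have h1 : ∀ n : ℕ, H α n ≤ Real.exp ((α - 1) * (harmonic n : ℝ)) := by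
    intro n
    induction n with
    | zero => simp [H_zero]
    | succ n ih =>
      have e := H_succ α n
      have e2 : H α (n + 1) = (1 + (α - 1) / ((n : ℝ) + 1)) * H α n := by
        have : (0 : ℝ) < (n : ℝ) + 1 := by positivity
        field_simp
        linarith
      rw [e2, harmonic_succ]
      push_cast
      rw [mul_add, Real.exp_add, mul_comm (Real.exp _) (Real.exp _)]
      apply mul_le_mul _ ih (H_pos (by linarith) n).le (Real.exp_pos _).le
      have := Real.add_one_le_exp ((α - 1) * ((n : ℝ) + 1)⁻¹)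
      calc 1 + (α - 1) / ((n : ℝ) + 1) = (α - 1) * ((n : ℝ) + 1)⁻¹ + 1 := by ring
        _ ≤ _ := this
  refine (h1 n).trans ?_
  have hn0 : (0 : ℝ) < n := by exact_mod_cast hn
  have h2 : Real.exp 1 * n = Real.exp (1 + Real.log n) := by
    rw [Real.exp_add, Real.exp_log hn0]
  rw [h2, ← Real.exp_mul]
  apply Real.exp_le_exp.2
  rw [mul_comm]
  apply mul_le_mul_of_nonneg_right (harmonic_le_one_add_log n) (by linarith)

/-- total length of parts of length at most `y` -/
def L (y : ℕ) (m : Multiset ℕ) : ℕ := (m.filter (fun i => i ≤ y)).sum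

/-- indicator that the parts of size at most `2x` have total size less than `x` -/
def A (x : ℕ) (m : Multiset ℕ) : ℝ := if L (2 * x) m < x then 1 else 0

theorem A_nonneg (x : ℕ) (m : Multiset ℕ) : 0 ≤ A x m := by
  unfold A; split_ifs <;> norm_num

def g (α : ℝ) (x n : ℕ) : ℝ := G α n (A x)

theorem g_nonneg {α : ℝ} (hα : 0 ≤ α) (x n : ℕ) : 0 ≤ g α x n := G_nonneg hα n _ (A_nonneg x)

theorem g_small (α : ℝ) (x n : ℕ) (h : n < x) : g α x n = H α n := by
  unfold g H G
  apply Finset.sum_congr rfl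
  intro m hm
  rw [mem_P] at hm
  unfold A
  rw [if_pos]
  unfold L
  refine lt_of_le_of_lt ?_ h
  rw [← hm.2]
  have := congrArg Multiset.sum (Multiset.filter_add_not (fun i => i ≤ 2 * x) m)
  rw [Multiset.sum_add] at this
  omega

theorem g_rec {α : ℝ} (hα : 0 ≤ α) (x n : ℕ) :
    α * ∑ i ∈ Finset.range (n - 2 * x), g α x i ≤ (n : ℝ) * g α x n := by
  unfold g
  rw [total]
  apply mul_le_mul_of_nonneg_left _ hα
  have h1 : ∑ i ∈ Finset.range (n - 2 * x), G α i (A x) =
      ∑ j ∈ Finset.Ioc (2 * x) n, G α (n - j) (fun m => A x (j ::ₘ m)) := by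
    refine Finset.sum_bij' (fun i _ => n - i) (fun j _ => n - j) ?_ ?_ ?_ ?_ ?_
    · intro i hi
      rw [Finset.mem_range] at hi
      rw [Finset.mem_Ioc]; omega
    · intro j hj
      rw [Finset.mem_Ioc] at hj
      rw [Finset.mem_range]; omega
    · intro i hi
      rw [Finset.mem_range] at hi
      omega
    · intro j hj
      rw [Finset.mem_Ioc] at hj
      omega
    · intro i hi
      rw [Finset.mem_range] at hi
      have : n - (n - i) = i := by omega
      rw [this]
      congr 1
      funext m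
      unfold A L
      rw [Multiset.filter_cons_of_neg]
      omega
  rw [h1]
  apply Finset.sum_le_sum_of_subset_of_nonneg
  · intro j hj
    rw [Finset.mem_Ioc] at hj
    rw [Finset.mem_Icc]; omega
  · intro j _ _
    exact G_nonneg hα _ _ (fun m => A_nonneg x _)

theorem g_lower (α : ℝ) (hα : 1 ≤ α) (x n : ℕ) (hx : 1 ≤ x) (hn : 3 * x ≤ n) :
    α / n * ((n : ℝ) / (3 * α * (1 + α))) ^ α ≤ g α x n := by
  have h0 : 0 < α := by linarith
  have hx0 : (1 : ℝ) ≤ x := by exact_mod_cast hx
  have hn0 : (0 : ℝ) < n := by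
    have : 0 < n := by omega
    exact_mod_cast this
  set T : ℝ := ((x : ℝ) / α) ^ α with hT
  have hT0 : 0 ≤ T := by positivity
  have hg := growth α hα (2 * x + 1) (x - 1) (3 * x - 1) (by omega) (by omega) T hT0
    (fun N => ∑ i ∈ Finset.range (N + 1), g α x i) ?_ ?_ (n - (2 * x + 1)) (by omega)
  · have h1 := g_rec h0.le x n
    have h2 : n - (2 * x + 1) + 1 = n - 2 * x := by omega
    simp only [h2] at hg
    have h3 : α / n * ∑ i ∈ Finset.range (n - 2 * x), g α x i ≤ g α x n := by
      rw [div_mul_eq_mul_div, div_le_iff₀ hn0]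
      linarith
    refine le_trans ?_ h3
    apply mul_le_mul_of_nonneg_left _ (by positivity)
    refine le_trans ?_ hg
    rw [hT, ← Real.mul_rpow (by positivity) (by positivity)]
    apply Real.rpow_le_rpow (by positivity) _ h0.le
    have c1 : ((n - (2 * x + 1) : ℕ) : ℝ) = n - (2 * x + 1) := by
      rw [Nat.cast_sub (by omega)]; push_cast; ring
    have c2 : ((3 * x - 1 : ℕ) : ℝ) = 3 * x - 1 := by
      rw [Nat.cast_sub (by omega)]; push_cast; ring
    rw [c1, c2]
    push_cast
    have hden : (0 : ℝ) < 3 * (x : ℝ) - 1 + α * (2 * x + 1) := by nlinarith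
    have hden2 : 3 * (x : ℝ) - 1 + α * (2 * x + 1) ≤ 3 * x * (1 + α) := by nlinarith
    have hnum : (n : ℝ) ≤ (n : ℝ) - (2 * x + 1) + α * (2 * x + 1) := by nlinarith
    calc (n : ℝ) / (3 * α * (1 + α)) = (x / α) * (n / (3 * x * (1 + α))) := by
          have : (0 : ℝ) < x := by linarith
          field_simp
      _ ≤ (x / α) * (((n : ℝ) - (2 * x + 1) + α * (2 * x + 1)) /
            (3 * x - 1 + α * (2 * x + 1))) := by
          apply mul_le_mul_of_nonneg_left _ (by positivity)
          exact div_le_div₀ (by linarith) hnum hden hden2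
  · intro N hN
    have h1 : ∑ i ∈ Finset.range x, g α x i ≤ ∑ i ∈ Finset.range (N + 1), g α x i := by
      apply Finset.sum_le_sum_of_subset_of_nonneg
      · intro i hi
        rw [Finset.mem_range] at *
        omega
      · intro i _ _
        exact g_nonneg h0.le x i
    refine le_trans ?_ h1
    have h2 : ∑ i ∈ Finset.range x, g α x i = ∑ i ∈ Finset.range (x - 1 + 1), H α i := by
      rw [Nat.sub_add_cancel hx]
      apply Finset.sum_congr rfl
      intro i hi
      rw [Finset.mem_range] at hi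
      exact g_small α x i hi
    rw [h2]
    refine le_trans ?_ (H_sum_lower α hα (x - 1))
    rw [hT]
    apply Real.rpow_le_rpow (by positivity) _ h0.le
    apply div_le_div_of_nonneg_right _ h0.le
    rw [Nat.cast_sub hx]
    push_cast
    linarith
  · intro N hN
    have hNpos : (0 : ℝ) < N := by
      have : 0 < N := by omega
      exact_mod_cast this
    obtain ⟨M, rfl⟩ : ∃ M, N = M + 1 := ⟨N - 1, by omega⟩
    simp only [Nat.add_sub_cancel]
    rw [Finset.sum_range_succ _ (M + 1)]
    have h1 := g_rec h0.le x (M + 1)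
    have h2 : M + 1 - (2 * x + 1) + 1 = M + 1 - 2 * x := by omega
    rw [h2]
    have h3 : α / ((M + 1 : ℕ) : ℝ) * ∑ i ∈ Finset.range (M + 1 - 2 * x), g α x i ≤
        g α x (M + 1) := by
      rw [div_mul_eq_mul_div, div_le_iff₀ hNpos]
      linarith
    linarith

/-- constant in the block estimate -/
def c0 (α : ℝ) : ℝ := α / (3 * α * (1 + α)) ^ α / (Real.exp 1) ^ (α - 1)

theorem c0_pos {α : ℝ} (hα : 1 ≤ α) : 0 < c0 α := by
  unfold c0
  have : 0 < α := by linarith
  positivity

theorem g_ge (α : ℝ) (hα : 1 ≤ α) (x n : ℕ) (hx : 1 ≤ x) (hn : 3 * x ≤ n) :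
    c0 α * H α n ≤ g α x n := by
  have h0 : 0 < α := by linarith
  have hn1 : 1 ≤ n := by omega
  have hn0 : (0 : ℝ) < n := by exact_mod_cast hn1
  refine le_trans ?_ (g_lower α hα x n hx hn)
  have h1 := H_upper α hα n hn1
  rw [Real.mul_rpow (Real.exp_pos 1).le hn0.le] at h1
  calc c0 α * H α n ≤ c0 α * (Real.exp 1 ^ (α - 1) * (n : ℝ) ^ (α - 1)) :=
        mul_le_mul_of_nonneg_left h1 (c0_pos hα).le
    _ = α / n * ((n : ℝ) / (3 * α * (1 + α))) ^ α := by
        unfold c0
        rw [Real.div_rpow hn0.le (by positivity), Real.rpow_sub_one hn0.ne']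
        have : (0 : ℝ) < Real.exp 1 ^ (α - 1) := by positivity
        field_simp

end

end Pool.Agent.V11329.Ew
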